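import Pool.Agent.MP_5c7750_co.Mg.Main

attribute [-instance] Module.IsNoetherian.finite AlgEquiv.instCoeOutRingEquiv
  Subfield.instIsScalarTowerSubtypeMem instCoeTCOfCoe LieRinehartAlgebra.toIsScalarTower
  IsPurelyInseparable.isIntegral littleWedderburn Module.free_of_finite_type_torsion_free'
  RKHS.instFunLike Valuation.IsRankOneDiscrete.mk' Quantale.instMulLeftMono
  MonTypeEquivalenceMon.monMonoid AddQuantale.instAddRightMono RCLike.charZero_rclike
  AddMonoidAlgebra.instAddCommMonoid GeneralizedCoheytingAlgebra.toLattice Algebra.WeaklyEtale.flat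
  NonUnitalAlgHomClass.toNonUnitalRingHomClass IntermediateField.module' NormedRing.toRing
  ConditionallyCompletePartialOrderSup.toPartialOrder NonUnitalRing.toNonUnitalNonAssocRing
  IntermediateField.normal CommMonTypeEquivalenceCommMon.commMonCommMonoid instNonemptyProd
  Algebra.Smooth.flat IdemSemiring.toSemiring BialgHomClass.toMonoidHomClass
  NormedCommRing.toCommRing IntermediateField.isSeparable_tower_top
  ContinuousMonoidHom.instCoeOutOfMonoidHomClassOfContinuousMapClass SetLike.GradeZero.instSemiring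
  SetLike.GradeZero.instCommRing IsOrderedCancelMonoid.toIsOrderedMonoid
  LieAdmissibleAlgebra.toModule Order.Coframe.toCompleteLattice Quantale.instMulRightMono
  GeneralizedHeytingAlgebra.toLattice NonUnitalSemiring.toNonUnitalNonAssocSemiring
  SeminormedCommRing.toCommRing IsPurelyInseparable.instNonemptyAlgHomOfPerfectField
  EuclideanDomain.toCommRing CompletelyDistribLattice.toCompleteLattice
  SetLike.GradeZero.instCommSemiring RightPreLieAlgebra.toModule instZeroLEOneClass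
  BialgHomClass.toAlgHomClass NonUnitalNormedCommRing.toNonUnitalCommRing LeftPreLieAlgebra.toModule
  NonAssocCommSemiring.toNonAssocSemiring instNonUnitalAlgHomClassOfNonUnitalAlgEquivClass
  AddQuantale.instAddLeftMono ESeminormedAddCommMonoid.toAddCommMonoid
  OmegaCompletePartialOrder.toPartialOrder Zero.instNonempty
  LieAdmissibleRing.toNonUnitalNonAssocRing NonUnitalNonAssocCommSemiring.toNonUnitalNonAssocSemiring
  ConditionallyCompleteLinearOrder.toLinearOrder NonUnitalSeminormedCommRing.toNonUnitalCommRing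
  AddCommGroupWithOne.toAddGroupWithOne IsDomain.toNontrivial
  ChainCompletePartialOrder.toPartialOrder IsLocalRing.toNontrivial BooleanRing.toRing
  Group.IsPerfect.subsingleton_of_isMulCommutative Order.Frame.toCompleteLattice
  CompleteSemilatticeInf.toPartialOrder ConditionallyCompletePartialOrderInf.toPartialOrder
  MulCharClass.toMonoidHomClass IdemCommSemiring.toCommSemiring CompleteSemilatticeSup.toPartialOrder
  FloorSemiring.instZeroLEOneClass IsStrictOrderedRing.toZeroLEOneClass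
  instZeroLEOneClassOfExistsAddOfLEOfPosMulMonoOfAddLeftMono BooleanRing.toCommRing
  ContinuousSemilinearMapClass.toSemilinearMapClass SetLike.GradeZero.instRing
  IsOrderedRing.toZeroLEOneClass NonAssocRing.toNonUnitalNonAssocRing NormedAlgebra.complexToReal
  SubringClass.toSeminormedRing instCharZeroOfIsSemireal instDecidableRelLt
  MulDistribMulActionSemiHomClass.toMonoidHomClass RingConeClass.toSubsemiringClass
  CommRing.Pic.instFreeOfSubsingleton NumberField.to_charZero instNontrivialOfCharZero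
  NonAssocCommRing.toNonUnitalNonAssocCommRing Algebra.IsQuadraticExtension.toFree
  FunLike.toDecidableEq

-- part Path
section

/-! Newton polygons along paths of discs. -/

namespace Pool.Agent.MP_5c7750_co.Th

open Polynomial Finset

variable {Γ : Type} [LinearOrderedCommGroupWithZero Γ]

theorem mono_le {κ κ' t t' : Γ} {a a' : ℕ} (ha : a' ≤ a) (ht : t ≤ t') (h0 : κ * t ^ a ≠ 0)
    (h : κ' * t ^ a' ≤ κ * t ^ a) : κ' * t' ^ a' ≤ κ * t' ^ a := by
  obtain ⟨d, rfl⟩ := Nat.exists_eq_add_of_le ha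
  have h1 : t ^ a' ≠ 0 := fun h1 => h0 (by rw [pow_add, h1, zero_mul, mul_zero])
  rw [pow_add, mul_comm (t ^ a'), ← mul_assoc] at h
  have h2 : κ' ≤ κ * t' ^ d :=
    (le_of_mul_le_mul_right h (zero_lt_iff.2 h1)).trans (by gcongr)
  calc κ' * t' ^ a' ≤ κ * t' ^ d * t' ^ a' := by gcongr
    _ = _ := by rw [pow_add, mul_assoc, mul_comm (t' ^ d)]

/-- the monomial `m` is maximal at the radius `s`. -/
def Mx {μ : Type} (T : Finset μ) (κ : μ → Γ) (a : μ → ℕ) (s : Γ) (m : μ) : Prop :=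
  m ∈ T ∧ κ m * s ^ a m ≠ 0 ∧ ∀ m' ∈ T, κ m' * s ^ a m' ≤ κ m * s ^ a m

theorem ivt {μ : Type} {T : Finset μ} {κ : μ → Γ} {a idx : μ → ℕ}
    (hr : ∀ (γ : Γ) (n : ℕ), n ≠ 0 → ∃ s, s ^ n = γ) {s1 : Γ}
    (H : ∀ s, s ≠ 0 → s ≤ s1 → ∀ m m', Mx T κ a s m → Mx T κ a s m' → idx m = idx m')
    (m : μ) (s : Γ) (hs : s ≤ s1) (hm : Mx T κ a s m) :
    ∃ m1, Mx T κ a s1 m1 ∧ idx m1 = idx m := by
  classical
  induction hN : T.sup a - a m using Nat.strong_induction_on generalizing m s with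
  | _ N ih =>
  have hκ : κ m ≠ 0 := left_ne_zero_of_mul hm.2.1
  have n0 : ∀ t, s ≤ t → κ m * t ^ a m ≠ 0 := fun t ht =>
    ((zero_lt_iff.2 hm.2.1).trans_le (by gcongr)).ne'
  let B := T.filter fun m' => κ m * s1 ^ a m < κ m' * s1 ^ a m'
  rcases B.eq_empty_or_nonempty with hB | hB
  · exact ⟨m, ⟨hm.1, n0 _ hs, fun m' h => not_lt.1 fun h' =>
      (eq_empty_iff_forall_notMem.1 hB m') (mem_filter.2 ⟨h, h'⟩)⟩, rfl⟩
  have b1 : ∀ m' ∈ T, ∀ t, s ≤ t → κ m * t ^ a m < κ m' * t ^ a m' → a m < a m' :=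
    fun m' h t ht h' => not_le.1 fun h2 => h'.not_ge (mono_le h2 ht hm.2.1 (hm.2.2 _ h))
  have b2 : ∀ m', ∃ c : Γ, a m < a m' → κ m' ≠ 0 → κ m' * c ^ (a m' - a m) = κ m := fun m' => by
    by_cases h : a m < a m'
    · obtain ⟨c, hc⟩ := hr (κ m / κ m') _ (Nat.sub_ne_zero_of_lt h)
      exact ⟨c, fun _ h' => by rw [hc, mul_div_cancel₀ _ h']⟩
    · exact ⟨0, fun h' => (h h').elim⟩
  choose c hc using b2
  have b3 : ∀ m' t, a m < a m' → κ m' ≠ 0 → t ^ a m ≠ 0 →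
      (κ m * t ^ a m < κ m' * t ^ a m' ↔ c m' < t) := fun m' t h h' ht => by
    have e : κ m' * t ^ a m' = κ m' * t ^ (a m' - a m) * t ^ a m := by
      rw [mul_assoc, ← pow_add, Nat.sub_add_cancel h.le]
    rw [e, mul_lt_mul_iff_left₀ (zero_lt_iff.2 ht), ← hc m' h h',
      mul_lt_mul_iff_right₀ (zero_lt_iff.2 h'),
      pow_lt_pow_iff_left₀ zero_le zero_le (Nat.sub_ne_zero_of_lt h)]
  obtain ⟨r, hr1, hr2⟩ := B.exists_min_image c hB
  obtain ⟨r1, r2⟩ := mem_filter.1 hr1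
  have r3 := b1 r r1 _ hs r2
  have r4 : κ r ≠ 0 := left_ne_zero_of_mul (zero_le.trans_lt r2).ne'
  have r5 : c r < s1 := (b3 r _ r3 r4 (right_ne_zero_of_mul (n0 _ hs))).1 r2
  have r6 : s ≤ c r := not_lt.1 fun h =>
    ((b3 r _ r3 r4 (right_ne_zero_of_mul hm.2.1)).2 h).not_ge (hm.2.2 _ r1)
  have r7 : c r ≠ 0 := fun h => hκ (by
    rw [← hc r r3 r4, h, zero_pow (Nat.sub_ne_zero_of_lt r3), mul_zero])
  have r8 : κ r * c r ^ a r = κ m * c r ^ a m := by
    rw [← hc r r3 r4, mul_assoc, ← pow_add, Nat.sub_add_cancel r3.le]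
  have r9 : Mx T κ a (c r) m := ⟨hm.1, n0 _ r6, fun m' h => not_lt.1 fun h' => by
    have k1 := b1 m' h _ r6 h'
    have k2 : κ m' ≠ 0 := left_ne_zero_of_mul (zero_le.trans_lt h').ne'
    have k3 := (b3 m' _ k1 k2 (pow_ne_zero _ r7)).1 h'
    exact k3.not_ge (hr2 m' (mem_filter.2 ⟨h, (b3 m' _ k1 k2
      (right_ne_zero_of_mul (n0 _ hs))).2 (k3.trans r5)⟩))⟩
  have r10 : Mx T κ a (c r) r := ⟨r1, r8 ▸ r9.2.1, r8 ▸ r9.2.2⟩
  have r11 : a r ≤ T.sup a := le_sup r1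
  obtain ⟨m1, h1, h2⟩ := ih (T.sup a - a r) (by omega) r _ r5.le r10 rfl
  exact ⟨m1, h1, h2.trans (H _ r7 r5.le _ _ r10 r9)⟩

variable {V : Valuation ℂ Γ}

theorem eval_le {c : ℂ[X]} {t : ℂ} {B : Γ} (h : ∀ a, V (c.coeff a) * V t ^ a ≤ B) :
    V (c.eval t) ≤ B := by
  rw [eval_eq_sum_range]
  exact V.map_sum_le fun a _ => by rw [V.map_mul, V.map_pow]; exact h a

theorem exists_coeff (c : ℂ[X]) (t : ℂ) : ∃ a ∈ range (c.natDegree + 1),
    V (c.eval t) ≤ V (c.coeff a) * V t ^ a := by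
  obtain ⟨a, h1, h2⟩ := (range (c.natDegree + 1)).exists_max_image
    (fun a => V (c.coeff a) * V t ^ a) nonempty_range_add_one
  refine ⟨a, h1, eval_le fun b => ?_⟩
  by_cases hb : b ∈ range (c.natDegree + 1)
  · exact h2 b hb
  · rw [coeff_eq_zero_of_natDegree_lt (by simpa using hb)]
    simp only [map_zero, zero_mul, zero_le]

theorem coeff_le {t : ℂ} (s : Multiset ℂ) (h : ∀ b ∈ s, 1 ≤ V (t - b) ∧ V b ≤ V (t - b)) (a : ℕ) :
    V ((s.map fun b => X - C b).prod.coeff a) ≤ V ((s.map fun b => X - C b).prod.eval t) := by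
  induction s using Multiset.induction_on generalizing a with
  | empty => cases a <;> simp only [Multiset.map_zero, Multiset.prod_zero, coeff_one, ↓ reduceIte, map_one, eval_one, Std.le_refl, Nat.add_eq_zero_iff, one_ne_zero, and_false, map_zero, zero_le]
  | cons b s ih =>
    have h1 := h b (Multiset.mem_cons_self _ _)
    replace ih := ih fun b hb => h b (Multiset.mem_cons_of_mem hb)
    rw [Multiset.map_cons, Multiset.prod_cons, eval_mul, V.map_mul, sub_mul, coeff_sub, coeff_C_mul,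
      eval_sub, eval_X, eval_C]
    refine V.map_sub_le ?_ ?_
    · cases a with
      | zero => simp only [mul_coeff_zero, coeff_X_zero, zero_mul, map_zero, zero_le]
      | succ a =>
        rw [coeff_X_mul]
        exact (ih a).trans (le_mul_of_one_le_left' h1.1)
    · rw [V.map_mul]
      exact mul_le_mul' h1.2 (ih a)

theorem gen (hn : ∀ n : ℕ, n ≠ 0 → V n = 1) (G : Finset ℂ[X]) : ∃ q : ℕ, ∀ t, V (t - q) < 1 →
    V t ≤ 1 ∧ ∀ g ∈ G, ∀ a, V (g.coeff a) ≤ V (g.eval t) := by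
  classical
  have h1 : ∀ b : ℂ, {q : ℕ | V (q - b) < 1}.Finite := fun b => Set.Subsingleton.finite
    fun q hq q' hq' => by
      by_contra h
      wlog h2 : q < q' generalizing q q'
      · exact this q' hq' q hq (Ne.symm h) (lt_of_le_of_ne (not_lt.1 h2) (Ne.symm h))
      have := V.map_sub_lt (g := 1) hq' hq
      rw [sub_sub_sub_cancel_right, ← Nat.cast_sub h2.le, hn _ (by omega)] at this
      exact this.false
  obtain ⟨q, hq⟩ := ((G.biUnion fun g => g.roots.toFinset).finite_toSet.biUnion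
    fun b _ => h1 b).exists_notMem
  have h2 : V (q : ℂ) ≤ 1 := by
    rcases eq_or_ne q 0 with rfl | h
    · simp only [CharP.cast_eq_zero, map_zero, zero_le]
    · exact (hn q h).le
  refine ⟨q, fun t ht => ?_⟩
  have h3 : V t ≤ 1 := by simpa only [sub_add_cancel] using V.map_add_le ht.le h2
  refine ⟨h3, fun g hg a => ?_⟩
  have h4 := coeff_le (V := V) (t := t) g.roots (fun b hb => by
    have h5 : 1 ≤ V (q - b) := not_lt.1 fun h => hq (Set.mem_biUnion (x := b)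
      (mem_coe.2 (mem_biUnion.2 ⟨g, hg, Multiset.mem_toFinset.2 hb⟩)) h)
    have h6 : V (t - b) = V (q - b) := by
      rw [← V.map_add_eq_of_lt_right (ht.trans_le h5), sub_add_sub_cancel]
    refine ⟨h6 ▸ h5, ?_⟩
    simpa only [sub_sub_cancel] using V.map_sub_le (h3.trans (h6 ▸ h5)) (le_refl (V (t - b)))) a
  rw [(IsAlgClosed.splits g).eq_prod_roots, coeff_C_mul, eval_mul, eval_C, V.map_mul, V.map_mul]
  gcongr

/-- `p'` is a generic point of the disc with centre `p` and radius `V μ`. -/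
def Top (V : Valuation ℂ Γ) (G : Finset ℂ[X]) (p μ p' : ℂ) : Prop :=
  V (p' - p) ≤ V μ ∧ ∀ g ∈ G, ∀ a, V ((taylor p g).coeff a) * V μ ^ a ≤ V (g.eval p')

theorem exists_top (hn : ∀ n : ℕ, n ≠ 0 → V n = 1) (G : Finset ℂ[X]) (p : ℂ) {μ π θ : ℂ}
    (hμ : μ ≠ 0) (hπ : π ≠ 0) (hπ' : V π < 1) {k : Subfield ℂ} (hθ : θ ∉ k) :
    ∃ p', p' ∉ k ∧ Top V G p μ p' := by
  classical
  obtain ⟨q, hq⟩ := gen hn (G.image fun g => (taylor p g).comp (C μ * X))
  obtain ⟨t, h1, h2⟩ : ∃ t, V (t - q) < 1 ∧ μ * t + p ∉ k := by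
    by_contra! h
    have h1 : ∀ η, V η ≤ 1 → μ * (π * η) ∈ k := fun η hη => by
      convert sub_mem (h (π * η + q) (by
        simpa only [add_sub_cancel_right, map_mul] using (mul_le_of_le_one_right' hη).trans_lt hπ')) (h q (by simp only [sub_self, map_zero, zero_lt_one])) using 1
      ring
    have h2 : ∀ η, V η ≤ 1 → η ∈ k := fun η hη => by
      convert div_mem (h1 η hη) (h1 1 (by simp only [map_one, Std.le_refl])) using 1
      field_simp
    rcases le_total (V θ) 1 with h3 | h3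
    · exact hθ (h2 _ h3)
    · exact hθ (by simpa only [inv_inv] using inv_mem (h2 θ⁻¹ (by simpa only [map_inv₀] using inv_le_one_of_one_le₀ h3)))
  obtain ⟨h3, h4⟩ := hq t h1
  refine ⟨_, h2, by simpa only [add_sub_cancel_right, map_mul] using mul_le_of_le_one_right' h3, fun g hg a => ?_⟩
  simpa only [comp_C_mul_X_coeff, map_mul, map_pow, eval_comp, eval_mul, eval_C, eval_X, taylor_eval] using h4 _ (mem_image_of_mem _ hg) a

theorem Top.le {G : Finset ℂ[X]} {p μ p' p'' : ℂ} (h : Top V G p μ p') (hμ : V μ ≤ 1)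
    (h' : V (p'' - p) ≤ 1) {g : ℂ[X]} (hg : g ∈ G) {N : ℕ} (hN : g.natDegree ≤ N) :
    V (g.eval p'') * V μ ^ N ≤ V (g.eval p') := by
  obtain ⟨a, h1, h2⟩ := exists_coeff (V := V) (taylor p g) (p'' - p)
  rw [taylor_eval_sub] at h2
  rw [natDegree_taylor, mem_range] at h1
  refine le_trans ?_ (h.2 g hg a)
  exact mul_le_mul' (h2.trans (mul_le_of_le_one_right' (pow_le_one' h' _)))
    (pow_le_pow_right_of_le_one' hμ (by omega))

/-- the index `n` dominates at the point `p` and the threshold `φ`. -/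
def Dom (V : Valuation ℂ Γ) (F : ℕ × ℕ → ℂ[X]) (p : ℂ) (φ : Γ) (n : ℕ) : Prop :=
  ∃ l, ∀ m : ℕ × ℕ, m.1 ≠ n → V ((F m).eval p) * φ ^ m.1 < V ((F (n, l)).eval p) * φ ^ n

theorem Dom.uniq {F : ℕ × ℕ → ℂ[X]} {p : ℂ} {φ : Γ} {n n' : ℕ} (h : Dom V F p φ n)
    (h' : Dom V F p φ n') : n = n' := by
  by_contra hne
  obtain ⟨l, h⟩ := h
  obtain ⟨l', h'⟩ := h'
  exact (h (n', l') (Ne.symm hne)).not_gt (h' (n, l) hne)

theorem path (hV : Function.Surjective V) {F : ℕ × ℕ → ℂ[X]} {J : Finset (ℕ × ℕ)}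
    {G : Finset ℂ[X]} (hJ : ∀ m ∉ J, F m = 0) (hG : ∀ m, F m ∈ G) {p μ1 p1 : ℂ} {φ : Γ}
    (H : ∀ μ, μ ≠ 0 → V μ ≤ V μ1 → ∃ p' n, Top V G p μ p' ∧ Dom V F p' φ n)
    {n0 n1 : ℕ} (h0 : Dom V F p φ n0) (h1 : Top V G p μ1 p1) (h2 : Dom V F p1 φ n1) :
    n1 = n0 := by
  classical
  let T := J ×ˢ range (G.sup natDegree + 1)
  let κ : (ℕ × ℕ) × ℕ → Γ := fun m => V ((taylor p (F m.1)).coeff m.2) * φ ^ m.1.1
  have k1 : ∀ μ p' n m, Top V G p μ p' → Dom V F p' φ n → Mx T κ Prod.snd (V μ) m →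
      m.1.1 = n := fun μ p' n m ht ⟨l, hd⟩ hm => by
    by_contra hne
    have a1 := hd m.1 hne
    obtain ⟨a, a2, a3⟩ := exists_coeff (V := V) (taylor p (F (n, l))) (p' - p)
    rw [taylor_eval_sub] at a3
    have a4 : (n, l) ∈ J := by
      by_contra h
      simp only [hJ _ h, eval_zero, map_zero, zero_mul, not_lt_zero] at a1
    have a5 := hm.2.2 ((n, l), a) (mem_product.2 ⟨a4, by
      have : (F (n, l)).natDegree ≤ G.sup natDegree := le_sup (hG _)
      rw [natDegree_taylor, mem_range] at a2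
      exact mem_range.2 (by omega)⟩)
    have a6 := ht.2 _ (hG m.1) m.2
    have a7 := ht.1
    refine a1.not_ge ?_
    calc _ ≤ V ((taylor p (F (n, l))).coeff a) * V μ ^ a * φ ^ n :=
          mul_le_mul' (a3.trans (by gcongr)) le_rfl
      _ = _ := mul_right_comm _ _ _
      _ ≤ _ := a5
      _ = _ := mul_right_comm _ _ _
      _ ≤ _ := mul_le_mul' a6 le_rfl
  have k0 : Top V G p 0 p := ⟨by simp only [sub_self, map_zero, Std.le_refl], fun g _ a => by
    cases a <;> simp only [taylor_coeff_zero, map_zero, pow_zero, mul_one, Std.le_refl, ne_eq, Nat.add_eq_zero_iff, one_ne_zero, and_false, not_false_eq_true, zero_pow, mul_zero, zero_le]⟩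
  obtain ⟨l, hl⟩ := id h0
  have a1 := zero_le.trans_lt (hl (n0 + 1, 0) (by simp))
  have a2 : ((n0, l), 0) ∈ T := mem_product.2 ⟨by
    by_contra h
    simp only [hJ _ h, eval_zero, map_zero, zero_mul, lt_self_iff_false] at a1, by simp only [mem_range, lt_add_iff_pos_left, Order.lt_add_one_iff, zero_le]⟩
  obtain ⟨m, m1, m2⟩ := T.exists_max_image (fun m => κ m * V 0 ^ m.2) ⟨_, a2⟩
  have m3 : Mx T κ Prod.snd (V 0) m := ⟨m1, (lt_of_lt_of_le (by
    simpa only [κ, taylor_coeff_zero, map_zero, pow_zero, mul_one] using a1) (m2 _ a2)).ne', m2⟩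
  obtain ⟨r, r1, r2⟩ := ivt (idx := fun m => m.1.1) (s1 := V μ1) (fun γ n hn => by
    obtain ⟨a, rfl⟩ := hV γ
    obtain ⟨b, rfl⟩ := IsAlgClosed.exists_pow_nat_eq a (Nat.pos_of_ne_zero hn)
    exact ⟨V b, (V.map_pow _ _).symm⟩) (fun s hs hs' m m' hm hm' => by
      obtain ⟨μ, rfl⟩ := hV s
      obtain ⟨p', n, h3, h4⟩ := H μ (fun h => hs (by simp only [h, map_zero])) hs'
      exact (k1 _ _ _ _ h3 h4 hm).trans (k1 _ _ _ _ h3 h4 hm').symm) m _ (by simp only [map_zero, zero_le]) m3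
  exact (k1 _ _ _ _ h1 h2 r1).symm.trans (r2.trans (k1 _ _ _ _ k0 h0 m3))

end Pool.Agent.MP_5c7750_co.Th

end

-- part Key
section

/-! Conjugates over a rational function field and their Newton polygons. -/

namespace Pool.Agent.MP_5c7750_co.Th

open Polynomial Finset IntermediateField

variable {Γ : Type} [LinearOrderedCommGroupWithZero Γ] {V : Valuation ℂ Γ}

/-- the coefficient of index `n` dominates at the radius `φ`. -/
def Dm (V : Valuation ℂ Γ) (Q : ℂ[X]) (φ : Γ) (n : ℕ) : Prop :=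
  ∀ i, i ≠ n → V (Q.coeff i) * φ ^ i < V (Q.coeff n) * φ ^ n

theorem Dm.add {P Q : ℂ[X]} {φ : Γ} {n : ℕ} (h : Dm V P φ n)
    (h' : ∀ i, V (Q.coeff i) * φ ^ i < V (P.coeff n) * φ ^ n) : Dm V (P + Q) φ n := by
  intro i hi
  rw [coeff_add, coeff_add, V.map_add_eq_of_lt_left (lt_of_mul_lt_mul_right' (h' n))]
  rcases V.map_add' (P.coeff i) (Q.coeff i) with h1 | h1
  · exact (mul_le_mul' h1 le_rfl).trans_lt (h i hi)
  · exact (mul_le_mul' h1 le_rfl).trans_lt (h' i)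

theorem dom_prod {β : Type} (s : Finset β) (α : β → ℂ) {φ : Γ} (hφ : φ ≠ 0)
    (h : ∀ b ∈ s, V (α b) ≠ φ) :
    Dm V (∏ b ∈ s, (X - C (α b))) φ #{b ∈ s | V (α b) < φ} := by
  classical
  induction s using Finset.induction_on with
  | empty =>
    intro i hi
    have : i ≠ 0 := by simpa only [ne_eq, filter_empty, card_empty] using hi
    simp only [prod_empty, coeff_one, this, ↓ reduceIte, map_zero, zero_mul, filter_empty, card_empty, map_one, pow_zero, mul_one, zero_lt_one]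
  | insert b s hb ih =>
    replace ih := ih fun b hb => h b (mem_insert_of_mem hb)
    rw [prod_insert hb, filter_insert, apply_ite card,
      card_insert_of_notMem fun h => hb (mem_filter.1 h).1]
    generalize (∏ b ∈ s, (X - C (α b))) = Q at ih
    generalize #{b ∈ s | V (α b) < φ} = n at ih
    have p0 := zero_lt_iff.2 hφ
    have h0 := zero_le.trans_lt (ih (n + 1) (by simp))
    have h1 : ∀ i, V (Q.coeff i) * φ ^ i ≤ V (Q.coeff n) * φ ^ n := fun i => by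
      rcases eq_or_ne i n with rfl | hi
      exacts [le_rfl, (ih i hi).le]
    have e1 : ∀ i, V ((X * Q).coeff (i + 1)) * φ ^ (i + 1) = φ * (V (Q.coeff i) * φ ^ i) :=
      fun i => by rw [coeff_X_mul, pow_succ', mul_left_comm]
    have e2 : ∀ i, V ((-(C (α b) * Q)).coeff i) * φ ^ i = V (α b) * (V (Q.coeff i) * φ ^ i) :=
      fun i => by rw [coeff_neg, coeff_C_mul, V.map_neg, V.map_mul, mul_assoc]
    rw [sub_mul, sub_eq_add_neg]
    split_ifs with h2
    · refine Dm.add (fun i hi => ?_) fun i => ?_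
      · rw [e1]
        cases i with
        | zero => simpa only [mul_coeff_zero, coeff_X_zero, zero_mul, map_zero, pow_zero, mul_one] using mul_pos p0 h0
        | succ i =>
          rw [e1]
          exact mul_lt_mul_of_pos_left (ih i (by omega)) p0
      · rw [e1, e2]
        exact (mul_le_mul' le_rfl (h1 i)).trans_lt (mul_lt_mul_of_pos_right h2 h0)
    · have h3 : φ < V (α b) := lt_of_le_of_ne (not_lt.1 h2) (h b (mem_insert_self _ _)).symm
      rw [add_comm]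
      refine Dm.add (fun i hi => ?_) fun i => ?_
      · rw [e2, e2]
        exact mul_lt_mul_of_pos_left (ih i hi) (p0.trans h3)
      · rw [e2]
        cases i with
        | zero => simpa only [mul_coeff_zero, coeff_X_zero, zero_mul, map_zero, pow_zero, mul_one] using mul_pos (p0.trans h3) h0
        | succ i =>
          rw [e1]
          exact (mul_le_mul' le_rfl (h1 i)).trans_lt (mul_lt_mul_of_pos_right h3 h0)

theorem denom {k : Subfield ℂ} {ξ : ℂ} (s : Finset ℂ) (hs : ∀ a ∈ s, a ∈ k⟮ξ⟯) :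
    ∃ q : k[X], aeval ξ q ≠ 0 ∧ ∀ a ∈ s, ∃ r : k[X], aeval ξ r = aeval ξ q * a := by
  classical
  induction s using Finset.induction_on with
  | empty => exact ⟨1, by simp, by simp⟩
  | insert b s hb ih =>
    obtain ⟨q, h1, h2⟩ := ih fun a ha => hs a (mem_insert_of_mem ha)
    obtain ⟨r, q', h3⟩ := (mem_adjoin_simple_iff _ _).1 (hs b (mem_insert_self _ _))
    by_cases h4 : aeval ξ q' = 0
    · refine ⟨q, h1, fun a ha => (mem_insert.1 ha).elim (fun h => ⟨0, ?_⟩) (h2 a)⟩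
      simp [h, h3, h4]
    · refine ⟨q * q', by simp [h1, h4], fun a ha => ?_⟩
      rcases mem_insert.1 ha with rfl | h
      · exact ⟨q * r, by rw [map_mul, map_mul, h3]; field_simp⟩
      · obtain ⟨r', h5⟩ := h2 a h
        exact ⟨q' * r', by rw [map_mul, map_mul, h5]; ring⟩

/-- the polynomial with the given coefficients. -/
noncomputable def pol {r : ℕ} (b : Fin r → ℂ) : ℂ[X] := ∑ i, monomial i.val (b i)

theorem pol_map {r : ℕ} (b : Fin r → ℂ) (f : ℂ →+* ℂ) : (pol b).map f = pol (f ∘ b) := by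
  simp only [pol, Polynomial.map_sum, map_monomial, Function.comp_apply]

open Classical in
theorem key (hn : ∀ n : ℕ, n ≠ 0 → V n = 1) {k : Subfield ℂ} {ξ : ℂ}
    [Algebra.IsAlgebraic k⟮ξ⟯ ℂ] {r : ℕ} (e : Fin r → ℂ) :
    ∃ (F : ℕ × ℕ → ℂ[X]) (J : Finset (ℕ × ℕ)) (O : Finset (Fin r → ℂ)), (∀ m ∉ J, F m = 0) ∧
      e ∈ O ∧ (∀ b ∈ O, ∃ σ : ℂ →ₐ[k] ℂ, σ ξ = ξ ∧ b = σ ∘ e) ∧ ∀ (j : ℂ →ₐ[k] ℂ) (φ : Γ), φ ≠ 0 →
        (∀ b ∈ O, (∀ i, V (j (b i)) < φ) ∨ ∃ i, φ < V (j (b i))) →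
          Dom V F (j ξ) φ #{b ∈ O | ∀ i, V (j (b i)) < φ} := by
  have hf : {b : Fin r → ℂ | ∃ σ : ℂ ≃ₐ[k⟮ξ⟯] ℂ, b = σ ∘ e}.Finite :=
    (Set.Finite.pi' fun i => rootSet_finite (minpoly k⟮ξ⟯ (e i)) ℂ).subset (by
      rintro _ ⟨σ, rfl⟩ i
      rw [mem_rootSet_of_ne (minpoly.ne_zero (Algebra.IsIntegral.isIntegral _))]
      simp [aeval_algHom_apply])
  let P : ℂ[X][X] := ∏ b ∈ hf.toFinset, (X - C (pol b))
  have h1 : ∀ i l, (P.coeff i).coeff l ∈ k⟮ξ⟯ := fun i l => by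
    have : IsAlgClosure k⟮ξ⟯ ℂ := ⟨inferInstance, inferInstance⟩
    have : IsGalois k⟮ξ⟯ ℂ := {}
    obtain ⟨a, ha⟩ := (InfiniteGalois.mem_range_algebraMap_iff_fixed (k := k⟮ξ⟯)
      ((P.coeff i).coeff l)).2 fun σ => by
      have : P.map (mapRingHom (σ : ℂ →+* ℂ)) = P := by
        simp only [P, Polynomial.map_prod, Polynomial.map_sub, map_X, map_C, coe_mapRingHom,
          pol_map]
        refine prod_nbij' (fun b => σ ∘ b) (fun b => σ.symm ∘ b) ?_ ?_ ?_ ?_ fun _ _ => rfl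
        · simp only [Set.Finite.mem_toFinset]
          rintro _ ⟨τ, rfl⟩
          exact ⟨τ.trans σ, rfl⟩
        · simp only [Set.Finite.mem_toFinset]
          rintro _ ⟨τ, rfl⟩
          exact ⟨τ.trans σ.symm, rfl⟩
        · exact fun b _ => funext fun i => σ.symm_apply_apply _
        · exact fun b _ => funext fun i => σ.apply_symm_apply _
      conv_rhs => rw [← this]
      simp
    exact ha ▸ a.2
  let J := (P.support ×ˢ range (P.support.sup (fun i => (P.coeff i).natDegree) + 1))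
  have h2 : ∀ m ∉ J, (P.coeff m.1).coeff m.2 = 0 := fun m hm => by
    by_contra h
    have h3 : m.1 ∈ P.support := mem_support_iff.2 fun h' => h (by simp [h'])
    exact hm (mem_product.2 ⟨h3, mem_range.2 (Nat.lt_succ_of_le ((le_natDegree_of_ne_zero h).trans
      (le_sup (f := fun i => (P.coeff i).natDegree) h3)))⟩)
  obtain ⟨q, h3, h4⟩ := denom (J.image fun m => (P.coeff m.1).coeff m.2) (by
    simp only [mem_image]
    rintro _ ⟨m, -, rfl⟩
    exact h1 _ _)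
  have h5 : ∀ m : ℕ × ℕ, ∃ g : k[X], (m ∉ J → g = 0) ∧
      aeval ξ g = aeval ξ q * (P.coeff m.1).coeff m.2 := fun m => by
    by_cases hm : m ∈ J
    · obtain ⟨g, hg⟩ := h4 _ (mem_image_of_mem _ hm)
      exact ⟨g, fun h => (h hm).elim, hg⟩
    · exact ⟨0, fun _ => rfl, by simp [h2 m hm]⟩
  choose g g1 g2 using h5
  refine ⟨fun m => (g m).map (algebraMap k ℂ), J, hf.toFinset, fun m hm => by simp [g1 m hm],
    hf.mem_toFinset.2 ⟨1, rfl⟩, fun b hb => ?_, fun j φ hφ H => ?_⟩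
  · obtain ⟨σ, rfl⟩ := hf.mem_toFinset.1 hb
    exact ⟨(σ : ℂ →ₐ[k⟮ξ⟯] ℂ).restrictScalars k, σ.commutes (AdjoinSimple.gen k ξ), rfl⟩
  let P' := P.map (mapRingHom (j : ℂ →+* ℂ))
  obtain ⟨t0, ht⟩ := gen hn (hf.toFinset.image (fun b => pol (j ∘ b)) ∪ insert 0 P'.coeffs)
  obtain ⟨t1, t2⟩ := ht t0 (by simp only [sub_self, map_zero, zero_lt_one])
  generalize (t0 : ℂ) = t at t1 t2
  have h6 : ∀ b ∈ hf.toFinset, (V ((pol (j ∘ b)).eval t) < φ ↔ ∀ i, V (j (b i)) < φ) ∧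
      V ((pol (j ∘ b)).eval t) ≠ φ := fun b hb => by
    have a1 : ∀ i, V (j (b i)) ≤ V ((pol (j ∘ b)).eval t) := fun i => by
      simpa only [pol, Function.comp_apply, finsetSum_coeff, coeff_monomial, Fin.val_inj, sum_ite_eq', mem_univ, ↓ reduceIte] using
        t2 _ (mem_union_left _ (mem_image_of_mem _ hb)) i
    have a2 : (∀ i, V (j (b i)) < φ) → V ((pol (j ∘ b)).eval t) < φ := fun h => by
      rw [pol, eval_finsetSum]
      refine V.map_sum_lt hφ fun i _ => ?_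
      rw [eval_monomial, V.map_mul, V.map_pow]
      exact (mul_le_of_le_one_right' (pow_le_one' t1 _)).trans_lt (h i)
    refine ⟨⟨fun h i => (a1 i).trans_lt h, a2⟩, (H b hb).elim (fun h => (a2 h).ne) ?_⟩
    exact fun ⟨i, h⟩ => (h.trans_le (a1 i)).ne'
  have h7 := dom_prod (V := V) hf.toFinset (fun b => (pol (j ∘ b)).eval t) hφ fun b hb => (h6 b hb).2
  rw [filter_congr fun b hb => (h6 b hb).1] at h7
  generalize #{b ∈ hf.toFinset | ∀ i, V (j (b i)) < φ} = n at h7 ⊢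
  have h8 : ∏ b ∈ hf.toFinset, (X - C ((pol (j ∘ b)).eval t)) = P'.map (evalRingHom t) := by
    simp only [P', P, Polynomial.map_prod, Polynomial.map_sub, map_X, map_C, coe_mapRingHom,
      pol_map, coe_evalRingHom]
    rfl
  have h9 : ∀ m : ℕ × ℕ, V (((g m).map (algebraMap k ℂ)).eval (j ξ)) =
      V (j (aeval ξ q)) * V ((P'.coeff m.1).coeff m.2) := fun m => by
    rw [eval_map_algebraMap, aeval_algHom_apply, g2, map_mul, V.map_mul]
    simp only [P', coeff_map, coe_mapRingHom, RingHom.coe_coe]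
  obtain ⟨l, -, hl⟩ := exists_coeff (V := V) (P'.coeff n) t
  refine ⟨l, fun m hm => ?_⟩
  have a1 := h7 m.1 hm
  rw [h8, coeff_map (evalRingHom t), coeff_map (evalRingHom t)] at a1
  rw [h9, h9, mul_assoc, mul_assoc]
  refine mul_lt_mul_of_pos_left ((mul_le_mul' (t2 _ (mem_union_right _ ?_) _) le_rfl).trans_lt
    (a1.trans_le (mul_le_mul' (hl.trans (mul_le_of_le_one_right' (pow_le_one' t1 _))) le_rfl)))
    (zero_lt_iff.2 (by simpa only [ne_eq, map_eq_zero] using h3))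
  by_cases h : P'.coeff m.1 = 0
  · simp only [h, mem_insert, true_or]
  · exact mem_insert_of_mem (coeff_mem_coeffs h)

theorem exists_emb {k : Subfield ℂ} (hk : AC k) {ξ p : ℂ} [Algebra.IsAlgebraic k⟮ξ⟯ ℂ]
    (hξ : ξ ∉ k) (hp : p ∉ k) : ∃ j : ℂ →ₐ[k] ℂ, j ξ = p := by
  let e1 := RatFunc.algEquivOfTranscendental (K := k) ξ fun h => hξ (hk _ h)
  let e2 := RatFunc.algEquivOfTranscendental (K := k) p fun h => hp (hk _ h)
  obtain ⟨j, hj⟩ := IsAlgClosed.surjective_domRestrict_of_isAlgebraic (E := ℂ)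
    (k⟮p⟯.val.comp (e1.symm.trans e2 : k⟮ξ⟯ →ₐ[k] k⟮p⟯))
  refine ⟨j, (DFunLike.congr_fun hj (AdjoinSimple.gen k ξ)).trans ?_⟩
  change (e2 (e1.symm (AdjoinSimple.gen k ξ)) : ℂ) = p
  rw [show e1.symm (AdjoinSimple.gen k ξ) = RatFunc.X from
    RatFunc.algEquivOfTranscendental_symm_gen _ _]
  exact RatFunc.algEquivOfTranscendental_X p _

theorem alg_of_cl {T : Set ℂ} {ξ : ℂ} (h : ∀ t, t ∈ cl (insert ξ T)) :
    Algebra.IsAlgebraic (cl T)⟮ξ⟯ ℂ := ⟨fun t => by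
  have h1 : IsAlgebraic (adjoin ℚ (insert ξ T)).toSubalgebra t := mem_algebraicClosure_iff.1 (h t)
  have h2 : adjoin ℚ (insert ξ T) ≤ (cl T)⟮ξ⟯.restrictScalars ℚ := by
    refine adjoin_le_iff.2 ?_
    rintro a (rfl | ha)
    · exact mem_adjoin_simple_self (cl T) a
    · exact (cl T)⟮ξ⟯.algebraMap_mem ⟨a, sub_cl ha⟩
  exact h1.tower_top_of_subalgebra_le (B := ((cl T)⟮ξ⟯.restrictScalars ℚ).toSubalgebra) h2⟩

theorem exch {T : Set ℂ} {a b : ℂ} (h : a ∉ cl T) (h' : a ∈ cl (insert b T)) :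
    b ∈ cl (insert a T) :=
  mem_cl.2 (Matroid.mem_closure_insert (fun h1 => h (mem_cl.2 h1)) (mem_cl.1 h'))

theorem exists_max {S : Set ℂ} {x : ℂ} (h : x ∉ cl S) :
    ∃ T, cl S ≤ cl T ∧ x ∉ cl T ∧ ∀ t, t ∈ cl (insert x T) := by
  let M := AlgebraicIndependent.matroid ℚ ℂ
  obtain ⟨B, hB⟩ := M.exists_isBasis S (by simp [M])
  have h1 : x ∉ M.closure B := by rwa [hB.closure_eq_closure, ← mem_cl]
  have h2 : x ∉ B := fun h => h1 (M.subset_closure B (by simp [M]) h)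
  obtain ⟨D, hD, h3⟩ := ((hB.indep.insert_indep_iff_of_notMem h2).2
    ⟨by simp [M], h1⟩).exists_isBase_superset
  have h4 : B ⊆ D \ {x} := fun b hb => ⟨h3 (Or.inr hb), fun h => h2 (h ▸ hb)⟩
  refine ⟨D \ {x}, fun t ht => mem_cl.2 (M.closure_subset_closure h4
    (hB.closure_eq_closure ▸ mem_cl.1 ht)),
    fun h => hD.indep.notMem_closure_sdiff_of_mem (h3 (Or.inl rfl)) (mem_cl.1 h), fun t => ?_⟩
  rw [Set.insert_sdiff_singleton, Set.insert_eq_of_mem (h3 (Or.inl rfl)), mem_cl, hD.closure_eq]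
  simp [M]

theorem not_mem_cl {J : Type} {x : J → ℂ} (hx : AlgebraicIndependent ℚ x) {s : Set J} {j : J}
    (h : j ∉ s) : x j ∉ cl (x '' s) := fun h1 =>
  hx.transcendental_adjoin h (isAlgebraic_adjoin_iff.1 (mem_algebraicClosure_iff.1 h1))

end Pool.Agent.MP_5c7750_co.Th

end

-- part Liou
section

/-! A non-archimedean Liouville argument. -/

namespace Pool.Agent.MP_5c7750_co.Th

open Polynomial Finset IntermediateField

variable {Γ : Type} [LinearOrderedCommGroupWithZero Γ] {V : Valuation ℂ Γ}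

theorem Dom.margin {F : ℕ × ℕ → ℂ[X]} {p p' : ℂ} {φ β : Γ} {n : ℕ} (h0 : β ≠ 0) (hβ : β ≤ 1)
    (h1 : Dom V F p (φ * (β * β) * (β * β)) n) (h2 : Dom V F p φ n)
    (h : ∀ m, V ((F m).eval p') * β ≤ V ((F m).eval p) ∧
      V ((F m).eval p) * β ≤ V ((F m).eval p')) : Dom V F p' (φ * (β * β)) n := by
  obtain ⟨l1, h1⟩ := h1
  obtain ⟨l2, h2⟩ := h2
  obtain ⟨l, a1, a2⟩ : ∃ l, V ((F (n, l1)).eval p) ≤ V ((F (n, l)).eval p) ∧
      V ((F (n, l2)).eval p) ≤ V ((F (n, l)).eval p) :=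
    (le_total _ _).elim (fun h => ⟨l2, h, le_rfl⟩) fun h => ⟨l1, le_rfl, h⟩
  refine ⟨l, fun m hm => ?_⟩
  have p0 := zero_lt_iff.2 h0
  generalize hγ : β * β = γ at *
  have g0 : 0 < γ := hγ ▸ mul_pos p0 p0
  have g1 : ∀ d, γ ^ (d + 1) ≤ γ := fun d => by
    rw [pow_succ]
    exact mul_le_of_le_one_left' (pow_le_one' (hγ ▸ mul_le_one' hβ hβ) _)
  have a3 : V ((F m).eval p) * (φ * γ) ^ m.1 < V ((F (n, l)).eval p) * (φ * γ) ^ n * γ := by
    rcases lt_or_gt_of_ne hm with h3 | h3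
    · obtain ⟨d, rfl⟩ := Nat.exists_eq_add_of_lt h3
      have a4 := (h1 m hm).trans_le (mul_le_mul' a1 le_rfl)
      rw [mul_pow _ γ, mul_pow _ γ (m.1 + d + 1), add_assoc, pow_add γ, mul_comm (γ ^ m.1),
        ← mul_assoc, ← mul_assoc, ← mul_assoc] at a4
      exact (lt_of_mul_lt_mul_right' a4).trans_le (mul_le_mul' le_rfl (g1 d))
    · obtain ⟨d, hd⟩ := Nat.exists_eq_add_of_lt h3
      have a4 := mul_lt_mul_of_pos_right ((h2 m hm).trans_le (mul_le_mul' a2 le_rfl))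
        (pow_pos g0 m.1)
      rw [mul_assoc, ← mul_pow] at a4
      refine a4.trans_le ?_
      rw [hd, add_assoc, pow_add, ← mul_assoc, mul_assoc _ _ (γ ^ n), ← mul_pow]
      exact mul_le_mul' le_rfl (g1 d)
  refine lt_of_mul_lt_mul_right' (a := γ) ?_
  calc _ = V ((F m).eval p') * β * (φ * γ) ^ m.1 * β := by rw [← hγ]; ac_rfl
    _ ≤ V ((F m).eval p) * (φ * γ) ^ m.1 * β := by gcongr; exact (h m).1
    _ < _ := mul_lt_mul_of_pos_right a3 p0
    _ = V ((F (n, l)).eval p) * β * (φ * γ) ^ n * γ := by ac_rfl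
    _ ≤ _ := by gcongr; exact (h _).2

open Classical in
theorem key' (hn : ∀ n : ℕ, n ≠ 0 → V n = 1) {k : Subfield ℂ} (ξ : ℂ)
    [Algebra.IsAlgebraic k⟮ξ⟯ ℂ] {r : ℕ} (e : Fin r → ℂ) :
    ∃ (F : ℕ × ℕ → ℂ[X]) (J : Finset (ℕ × ℕ)) (G : Finset ℂ[X]) (O : Finset (ℂ →ₐ[k] ℂ)),
      (∀ m ∉ J, F m = 0) ∧ (∀ m, F m ∈ G) ∧ X ∈ G ∧ (∃ σ ∈ O, ∀ i, σ (e i) = e i) ∧
      (∀ σ ∈ O, σ ξ = ξ) ∧ ∀ (j : ℂ →ₐ[k] ℂ) (φ : Γ), φ ≠ 0 →
        (∀ j' : ℂ →ₐ[k] ℂ, j' ξ = j ξ → (∀ i, V (j' (e i)) < φ) ∨ ∃ i, φ < V (j' (e i))) →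
          Dom V F (j ξ) φ #{σ ∈ O | ∀ i, V (j (σ (e i))) < φ} := by
  obtain ⟨F, J, O, h1, h2, h3, h4⟩ := key hn (k := k) (ξ := ξ) e
  choose! σ s1 s2 using h3
  refine ⟨F, J, insert X (insert 0 (J.image F)), O.image σ, h1, fun m => ?_, by simp only [mem_insert, X_ne_zero, mem_image, Prod.exists, false_or, true_or],
    ⟨_, mem_image_of_mem _ h2, fun i => (congrFun (s2 e h2) i).symm⟩, by simpa only [mem_image, forall_exists_index, and_imp, forall_apply_eq_imp_iff₂] using s1,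
    fun j φ hφ H => ?_⟩
  · by_cases h : m ∈ J
    · exact mem_insert_of_mem (mem_insert_of_mem (mem_image_of_mem _ h))
    · simp only [h1 m h, mem_insert, mem_image, Prod.exists, true_or, or_true]
  · rw [filter_image, card_image_of_injOn fun b hb b' hb' h => by
      rw [s2 b (mem_filter.1 hb).1, s2 b' (mem_filter.1 hb').1, h]]
    have e1 : ∀ b ∈ O, ∀ i, σ b (e i) = b i := fun b hb i => (congrFun (s2 b hb) i).symm
    rw [filter_congr (q := fun b => ∀ i, V (j (b i)) < φ) fun b hb => by simp only [e1 b hb]]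
    refine h4 j φ hφ fun b hb => ?_
    simpa only [AlgHom.comp_apply, e1 b hb] using H (j.comp (σ b)) (by simp [s1 b hb])

theorem liou (hV : Function.Surjective V) (hn : ∀ n : ℕ, n ≠ 0 → V n = 1) {T : Set ℂ} {x : ℂ}
    (hx : x ∉ cl T) (hT : ∀ t, t ∈ cl (insert x T)) {r : ℕ} {e : Fin r → ℂ} {τ : Γ} (t0 : τ ≠ 0)
    (t1 : τ < 1) (h0 : ∀ i, V (e i) ≤ τ)
    (h1 : ∀ (j : ℂ →ₐ[cl T] ℂ) φ, τ < φ → φ < 1 → φ ≠ V (j x) →
      (∀ i, V (j (e i)) < φ) ∨ ∃ i, φ < V (j (e i)))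
    (h2 : ∀ j : ℂ →ₐ[cl T] ℂ, V (j x - 1) < 1 →
      (∀ i, V (j (e i)) ≤ τ) ∨ ∀ i, 1 ≤ V (j (e i)) * τ) (i0 : Fin r) : e i0 ∈ cl T := by
  classical
  have := alg_of_cl hT
  obtain ⟨F, J, G, O, hJ, hG, hX, ⟨σ, s1, s2⟩, hO, hD⟩ := key' hn (k := cl T) x e
  obtain ⟨N, hN⟩ : ∃ N, ∀ g ∈ G, g.natDegree ≤ N := ⟨_, fun g hg => le_sup hg⟩
  obtain ⟨a, rfl⟩ := hV τ
  obtain ⟨μ, rfl⟩ := IsAlgClosed.exists_pow_nat_eq a (show 0 < 4 * N + 4 by omega)
  rw [V.map_pow] at *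
  have m0 : V μ ≠ 0 := fun h => t0 (by simp [h])
  have m1 : V μ < 1 := not_le.1 fun h => t1.not_ge (one_le_pow₀ h)
  have m2 : μ ≠ 0 := fun h => m0 (by simp only [h, map_zero])
  have m3 : ∀ {a b : ℕ}, a < b → V μ ^ b < V μ ^ a := fun h =>
    pow_lt_pow_right_of_lt_one₀ (zero_lt_iff.2 m0) m1 h
  have m4 : ∀ a, a ≠ 0 → V μ ^ a < 1 := fun a h => pow_lt_one₀ zero_le m1 h
  have top : ∀ (ξ : ℂ) [Algebra.IsAlgebraic (cl T)⟮ξ⟯ ℂ], ξ ∉ cl T → ∀ G p ν, ν ≠ 0 →
      ∃ j : ℂ →ₐ[cl T] ℂ, Top V G p ν (j ξ) := fun ξ _ hξ G p ν hν => by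
    obtain ⟨p', a1, a2⟩ := exists_top hn G p hν m2 m1 hx
    obtain ⟨j, rfl⟩ := exists_emb (cl_ac T) hξ a1
    exact ⟨j, a2⟩
  have st1 : ∀ j : ℂ →ₐ[cl T] ℂ, (∀ i, V (j (e i)) < V μ ^ 2) ∨ ∃ i, V μ ^ 2 < V (j (e i)) := by
    intro j
    by_cases hj : V μ ^ 2 ≠ V (j x)
    · exact h1 j _ (m3 (by omega)) (m4 _ two_ne_zero) hj
    rw [not_not, ← V.map_pow] at hj
    have m5 : V (μ ^ 2) < 1 := V.map_pow μ 2 ▸ m4 _ two_ne_zero
    obtain ⟨j2, a2⟩ := top x hx G 1 _ (pow_ne_zero 2 m2)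
    obtain ⟨j3, a3⟩ := top x hx G (j x) _ (pow_ne_zero 2 m2)
    have b2 := a2.1.trans_lt m5
    have b1 : ∀ φ, V μ ^ (4 * N + 4) < φ → φ * V μ ^ (4 * N + 4) < 1 →
        Dom V F (j2 x) φ #{σ ∈ O | ∀ i, V (j2 (σ (e i))) ≤ V μ ^ (4 * N + 4)} := by
      intro φ c1 c2
      have c3 : ∀ a, 1 ≤ a * V μ ^ (4 * N + 4) → φ < a := fun a h =>
        lt_of_mul_lt_mul_right' (c2.trans_le h)
      rw [filter_congr (p := fun σ : ℂ →ₐ[cl T] ℂ => ∀ i, V (j2 (σ (e i))) ≤ V μ ^ (4 * N + 4))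
        (q := fun σ => ∀ i, V (j2 (σ (e i))) < φ) fun σ hσ =>
        ⟨fun h i => (h i).trans_lt c1, fun h => (h2 (j2.comp σ) (by simpa only [AlgHom.coe_comp, Function.comp_apply, hO σ hσ] using b2)).elim
          id fun h' => ((h i0).not_gt (c3 _ (h' i0))).elim⟩]
      exact hD j2 φ (zero_le.trans_lt c1).ne' fun j' h => (h2 j' (h ▸ b2)).imp
        (fun h i => (h i).trans_lt c1) fun h => ⟨i0, c3 _ (h i0)⟩
    generalize #{σ ∈ O | ∀ i, V (j2 (σ (e i))) ≤ V μ ^ (4 * N + 4)} = n at b1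
    have b3 : V (j x) ≤ 1 := hj ▸ m5.le
    have b4 : ∀ a, a = 1 ∨ a = 3 → n = #{σ ∈ O | ∀ i, V (j (σ (e i))) < V μ ^ a} := by
      intro a ha
      have c0 : V μ ^ (2 * N) ≠ 0 := pow_ne_zero _ m0
      have c1 : V μ ^ a / V μ ^ (4 * N) * (V μ ^ (2 * N) * V μ ^ (2 * N)) = V μ ^ a := by
        rw [← pow_add, show 2 * N + 2 * N = 4 * N by ring, div_mul_cancel₀ _ (pow_ne_zero _ m0)]
      have c2 : ∀ j' : ℂ →ₐ[cl T] ℂ, V (j' x) = V (μ ^ 2) →
          Dom V F (j' x) (V μ ^ a) #{σ ∈ O | ∀ i, V (j' (σ (e i))) < V μ ^ a} := fun j' h =>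
        hD j' _ (pow_ne_zero _ m0) fun j'' h' => h1 j'' _ (m3 (by omega)) (m4 _ (by omega)) (by
          rw [h', h, V.map_pow]
          rcases ha with rfl | rfl
          exacts [(m3 one_lt_two).ne', (m3 (by omega)).ne])
      refine path hV hJ hG (fun ν d0 d1 => ?_) (c2 j hj.symm) a3 (c1 ▸ Dom.margin c0
        (pow_le_one' m1.le _) (b1 _ ?_ ?_) (b1 _ ?_ ?_) fun m => ?_)
      · obtain ⟨j', d2⟩ := top x hx G (j x) ν d0
        refine ⟨_, _, d2, c2 j' (le_antisymm ?_ ?_)⟩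
        · simpa only [map_pow, sub_add_cancel] using V.map_add_le (d2.1.trans d1) hj.ge
        · simpa only [hj, taylor_X, coeff_add, coeff_X_zero, coeff_C_zero, zero_add, pow_zero, mul_one, eval_X] using d2.2 X hX 0
      · rw [c1, ← pow_add, ← pow_add]
        exact m3 (by omega)
      · rw [c1, ← pow_add, ← pow_add, ← pow_add]
        exact m4 _ (by omega)
      · rw [lt_div_iff₀ (pow_pos (zero_lt_iff.2 m0) _), ← pow_add]
        exact m3 (by omega)
      · rw [div_mul_eq_mul_div, div_lt_one₀ (pow_pos (zero_lt_iff.2 m0) _), ← pow_add]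
        exact m3 (by omega)
      · rw [pow_mul, ← V.map_pow]
        refine ⟨a2.le m5.le ?_ (hG m) (hN _ (hG m)), a3.le m5.le ?_ (hG m) (hN _ (hG m))⟩
        · exact V.map_sub_le (by simpa only [sub_add_cancel] using V.map_add_le (a3.1.trans m5.le) b3) V.map_one.le
        · exact V.map_sub_le (by simpa only [sub_add_cancel] using V.map_add_le b2.le V.map_one.le) b3
    by_contra! h
    obtain ⟨⟨i, c1⟩, c2⟩ := h
    refine (card_lt_card ⟨fun σ hσ => ?_, fun h => ?_⟩).ne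
      ((b4 3 (Or.inr rfl)).symm.trans (b4 1 (Or.inl rfl)))
    · exact mem_filter.2 ⟨(mem_filter.1 hσ).1, fun i =>
        ((mem_filter.1 hσ).2 i).trans (m3 (by omega))⟩
    · have c3 := (mem_filter.1 (h (mem_filter.2 ⟨s1, fun i => by
        rw [s2]; exact (c2 i).trans_lt (m3 one_lt_two)⟩))).2 i
      rw [s2] at c3
      exact (c3.trans (m3 (by omega))).not_ge c1
  by_contra hξ
  have := alg_of_cl (T := T) (ξ := e i0) fun t => cl_le (fun a ha => ha.elim
    (fun h => h ▸ exch hξ (hT _)) fun h => sub_cl (Or.inr h)) (hT t)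
  obtain ⟨F, J, G, O, hJ, hG, hX, ⟨σ, s1, s2⟩, hO, hD⟩ := key' hn (k := cl T) (e i0) e
  replace hD := fun j => hD j _ (pow_ne_zero 2 m0) fun j' _ => st1 j'
  obtain ⟨j1, a1⟩ := top _ hξ G (e i0) 1 one_ne_zero
  have a2 := path hV hJ hG (fun ν d0 _ => (top _ hξ G (e i0) ν d0).elim fun j' h => ⟨_, _, h, hD j'⟩)
    (hD (AlgHom.id _ _)) a1 (hD j1)
  rw [filter_false_of_mem fun σ hσ h => ?_, card_empty, eq_comm, card_eq_zero,
    filter_eq_empty_iff] at a2
  · exact a2 s1 fun i => by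
      rw [s2]
      exact (h0 i).trans_lt (m3 (by omega))
  · have a3 := h i0
    rw [hO σ hσ] at a3
    exact (a3.trans (m4 _ two_ne_zero)).not_ge (by simpa only [taylor_X, coeff_add, coeff_X_one, coeff_C_succ, add_zero, map_one, one_pow, mul_one, eval_X] using a1.2 X hX 1)

end Pool.Agent.MP_5c7750_co.Th

end

-- part Core
section

/-! Three colours: definitions, valuation lemmas and the interface of the core theorem. -/

namespace Pool.Agent.MP_5c7750_co.Th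

open Polynomial

variable {ι Γ : Type} [LinearOrderedCommGroupWithZero Γ]

/-- three unit vectors with sum `(d, D)` in isotropic coordinates. -/
def Tri (d D a b c : ℂ) : Prop :=
  a ≠ 0 ∧ b ≠ 0 ∧ c ≠ 0 ∧ a + b + c = d ∧ a⁻¹ + b⁻¹ + c⁻¹ = D

/-- unit distance between the points with direction `u.2` on the circle `u.1`. -/
def Adj (z w : ι → ℂ) (u v : ι × ℂ) : Prop :=
  (z u.1 + u.2 - (z v.1 + v.2)) * (w u.1 + u.2⁻¹ - (w v.1 + v.2⁻¹)) = 1

/-- one move between directions, using the centres in `I`. -/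
def Mv (z w : ι → ℂ) (I : Finset ι) (a b : ℂ) : Prop :=
  b = -a ∨ ∃ i ∈ I, ∃ j ∈ I, ∃ c, Tri (z j - z i) (w j - w i) a b c

/-- the component of the direction `a` contains no portal. -/
def PF (z w : ι → ℂ) (I : Finset ι) (a : ℂ) : Prop :=
  a ≠ 0 ∧ ∀ b, Relation.ReflTransGen (Mv z w I) a b → ∀ i ∈ I, ∀ j ∈ I, i ≠ j →
    b ≠ z j - z i ∧ b⁻¹ ≠ w j - w i

theorem exists_V {k J : Type} [Field k] [Algebra k ℂ] {t : J → ℂ} (ht : AlgebraicIndependent k t)
    (c : J → k) : ∃ O : ValuationSubring ℂ, (∀ a : k, a ≠ 0 → O.valuation (algebraMap k ℂ a) = 1) ∧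
      ∀ j, O.valuation (t j - algebraMap k ℂ (c j)) < 1 := by
  obtain ⟨O, h1, h2⟩ := exists_val (MvPolynomial.aeval (R := k) t).toRingHom ht
    (RingHom.ker (MvPolynomial.eval c)) (hP := RingHom.ker_isPrime _)
  refine ⟨O, fun a ha => ?_, fun j => ?_⟩
  · have h3 := (O.valuation_le_one_iff _).2 (h1 (MvPolynomial.C a))
    have h4 := (h2 (MvPolynomial.C a)).not.2 (by simpa using ha)
    rw [O.mem_nonunits_iff] at h4
    simpa only [AlgHom.toRingHom_eq_coe, RingHom.coe_coe, MvPolynomial.algHom_C] using le_antisymm h3 (not_lt.1 h4)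
  · have h4 := (h2 (MvPolynomial.X j - MvPolynomial.C (c j))).2 (by simp)
    rw [O.mem_nonunits_iff] at h4
    simpa only [gt_iff_lt, AlgHom.toRingHom_eq_coe, RingHom.coe_coe, map_sub, MvPolynomial.aeval_X, MvPolynomial.algHom_C] using h4

theorem exists_V' {J : Type} {x : J → ℂ} (hx : AlgebraicIndependent ℚ x) (s : Set J) (c : J → ℂ)
    (hc : ∀ j, c j ∈ cl (x '' s)) : ∃ O : ValuationSubring ℂ,
      (∀ a ∈ cl (x '' s), a ≠ 0 → O.valuation a = 1) ∧ ∀ j ∉ s, O.valuation (x j - c j) < 1 := by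
  have h1 : AlgebraicIndependent (IntermediateField.adjoin ℚ (x '' s)) fun j : ↥sᶜ => x j :=
    IntermediateField.algebraicIndependent_adjoin_iff.2
      (hx.adjoin_of_disjoint (s := s) (t := sᶜ) disjoint_compl_right)
  obtain ⟨O, h2, h3⟩ := exists_V h1.algebraicClosure fun j => ⟨c j, hc j⟩
  exact ⟨O, fun a ha h0 => h2 ⟨a, ha⟩ fun h => h0 (congrArg Subtype.val h), fun j hj => h3 ⟨j, hj⟩⟩

theorem adj_tri {z w : ι → ℂ} {u v : ι × ℂ} (hu : u.2 ≠ 0) (hv : v.2 ≠ 0) (h : Adj z w u v) :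
    ∃ g, Tri (z v.1 - z u.1) (w v.1 - w u.1) u.2 g (-v.2) := by
  refine ⟨-(z u.1 + u.2 - (z v.1 + v.2)), hu, neg_ne_zero.2 (left_ne_zero_of_mul_eq_one h),
    neg_ne_zero.2 hv, by ring, ?_⟩
  rw [inv_neg, inv_neg, ← eq_inv_of_mul_eq_one_right h]
  ring

theorem Tri.e2 {d D a b c : ℂ} (h : Tri d D a b c) : a * b + b * c + c * a = D * (a * b * c) := by
  obtain ⟨h1, h2, h3, -, rfl⟩ := h
  field_simp
  ring

theorem Tri.inv {d D a b c : ℂ} (h : Tri d D a b c) : Tri D d a⁻¹ b⁻¹ c⁻¹ :=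
  ⟨inv_ne_zero h.1, inv_ne_zero h.2.1, inv_ne_zero h.2.2.1, h.2.2.2.2, by simpa using h.2.2.2.1⟩

theorem Tri.perm {d D a b c : ℂ} (h : Tri d D a b c) : Tri d D b a c ∧ Tri d D c a b :=
  ⟨⟨h.2.1, h.1, h.2.2.1, by linear_combination h.2.2.2.1, by linear_combination h.2.2.2.2⟩,
    h.2.2.1, h.1, h.2.1, by linear_combination h.2.2.2.1, by linear_combination h.2.2.2.2⟩

theorem Tri.low (V : Valuation ℂ Γ) {d D a b c : ℂ} (h : Tri d D a b c) {ε ε' : Γ}
    (hd : V d ≤ ε) (hD : V D ≤ ε') (hε : ε * ε' < 1) (ha : V a ≤ ε) : V b ≤ ε := by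
  by_contra! hb
  have h1 : V (d - a) ≤ ε := V.map_sub_le hd ha
  have h2 : V c = V b := by
    rw [show c = -(b - (d - a)) by linear_combination h.2.2.2.1, V.map_neg]
    exact V.map_sub_eq_of_lt_left (h1.trans_lt hb)
  have h0 : 0 < V b * V b := mul_pos (zero_le.trans_lt hb) (zero_le.trans_lt hb)
  have h3 : V (a * D * (b * c)) < V b * V b := by
    rw [map_mul, map_mul, map_mul, h2]
    exact mul_lt_of_lt_one_left h0 ((mul_le_mul' ha hD).trans_lt hε)
  have h4 : V (a * (d - a)) < V b * V b := by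
    rw [map_mul]
    exact (mul_le_mul' ha h1).trans_lt (mul_lt_mul'' hb hb zero_le zero_le)
  have h5 := V.map_sub_lt h3 h4
  rw [show a * D * (b * c) - a * (d - a) = b * c by linear_combination a * h.2.2.2.1 - h.e2,
    map_mul, h2] at h5
  exact h5.false

theorem Tri.cube (V : Valuation ℂ Γ) {d D a b c : ℂ} (h : Tri d D a b c) (hd : V d < V a)
    (hD : V a * V D < 1) : V (a * b * c - a ^ 3) < V (a ^ 3) := by
  have h0 : 0 < V (a ^ 2) := zero_lt_iff.2 (V.ne_zero_iff.2 (pow_ne_zero 2 h.1))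
  have h1 : a * b * c * (1 - a * D) = (a - d) * a ^ 2 := by
    linear_combination a * h.e2 - a ^ 2 * h.2.2.2.1
  have h2 : V (1 - a * D) = 1 := V.map_one_sub_of_lt (by rwa [map_mul])
  have h3 : V (a ^ 3) = V a * V (a ^ 2) := by rw [← map_mul, ← pow_succ']
  have h4 : (a * b * c - a ^ 3) * (1 - a * D) = a * D * a ^ 3 - d * a ^ 2 := by
    linear_combination h1
  have h5 := congrArg V h4
  rw [map_mul, h2, mul_one] at h5
  rw [h5]
  refine V.map_sub_lt ?_ ?_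
  · rw [map_mul, map_mul]
    exact mul_lt_of_lt_one_left (zero_lt_iff.2 (V.ne_zero_iff.2 (pow_ne_zero 3 h.1))) hD
  · rw [map_mul, h3]
    exact mul_lt_mul_of_pos_right hd h0

/-- the three zones of a triple: small, middle (with the same leading cube) and large. -/
theorem Tri.zone (V : Valuation ℂ Γ) {d D a b c : ℂ} (h : Tri d D a b c) {ε ε' : Γ}
    (hd : V d ≤ ε) (hD : V D ≤ ε') (hε : ε * ε' < 1) :
    (V a ≤ ε → V b ≤ ε) ∧ (1 ≤ V a * ε' → 1 ≤ V b * ε') ∧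
      (ε < V a → V a * ε' < 1 → V b = V a ∧ V (a ^ 3 - b ^ 3) < V (b ^ 3)) := by
  have k : ∀ {a b : ℂ}, Tri d D a b c → 1 ≤ V a * ε' → 1 ≤ V b * ε' := fun {a b} h h1 => by
    have h2 := h.inv.low V hD hd (by rwa [mul_comm])
    rw [map_inv₀, map_inv₀, inv_le_iff_one_le_mul₀' (zero_lt_iff.2 (V.ne_zero_iff.2 h.1)),
      inv_le_iff_one_le_mul₀' (zero_lt_iff.2 (V.ne_zero_iff.2 h.2.1))] at h2
    exact h2 h1
  refine ⟨h.low V hd hD hε, k h, fun h1 h2 => ?_⟩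
  have h3 : ε < V b := lt_of_not_ge fun h3 => h1.not_ge (h.perm.1.low V hd hD hε h3)
  have h4 : V b * ε' < 1 := lt_of_not_ge fun h4 => h2.not_ge (k h.perm.1 h4)
  have h5 := h.cube V (hd.trans_lt h1) ((mul_le_mul' le_rfl hD).trans_lt h2)
  have h6 := h.perm.1.cube V (hd.trans_lt h3) ((mul_le_mul' le_rfl hD).trans_lt h4)
  rw [mul_comm b a] at h6
  have h7 : V (b ^ 3) = V (a ^ 3) := (V.map_eq_of_sub_lt h6).symm.trans (V.map_eq_of_sub_lt h5)
  refine ⟨(pow_left_inj₀ zero_le zero_le three_ne_zero).1 (by simpa only [zero_le, ne_eq, OfNat.ofNat_ne_zero, not_false_eq_true, pow_left_inj₀, map_pow] using h7), ?_⟩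
  convert V.map_sub_lt h6 (h7 ▸ h5) using 2
  ring

theorem Tri.unit (V : Valuation ℂ Γ) {d D a b c : ℂ} (h : Tri d D a b c)
    (h1 : V (d * D - 1) < 1) : (V (a - d) < V d ∧ V (b + c) < V c) ∨
      (V (b - d) < V d ∧ V (a + c) < V c) ∨ (V (c - d) < V d ∧ V (a + b) < V b) := by
  have p : ∀ {a b c : ℂ}, Tri d D a b c →
      V (b + c) * (V (a + b) * V (a + c)) < V a * (V b * V c) := fun {a b c} h => by
    have h2 : (b + c) * ((a + b) * (a + c)) = (d * D - 1) * (a * (b * c)) := by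
      linear_combination (a * b + b * c + c * a) * h.2.2.2.1 + d * h.e2
    simp only [← map_mul]
    rw [h2, map_mul]
    exact mul_lt_of_lt_one_left
      (zero_lt_iff.2 (V.ne_zero_iff.2 (mul_ne_zero h.1 (mul_ne_zero h.2.1 h.2.2.1)))) h1
  have e : ∀ {b c : ℂ}, V (b + c) < V c → V b = V c := fun {b c} h => by
    rw [← V.map_neg c] at h ⊢
    exact V.map_eq_of_sub_lt (by rwa [sub_neg_eq_add])
  have k : ∀ {a b c : ℂ}, Tri d D a b c → V (b + c) < V c → V (a - d) < V d ∧ V (b + c) < V c :=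
    fun {a b c} h h2 => by
      have h3 : V (b + c) < V a := by
        rcases lt_or_ge (V a) (V c) with h4 | h4
        · have h5 := p h
          rw [V.map_add_eq_of_lt_right h4, V.map_add_eq_of_lt_right (h4.trans_eq (e h2).symm)] at h5
          exact lt_of_mul_lt_mul_right h5 zero_le
        · exact h2.trans_le h4
      rw [show a - d = -(b + c) by linear_combination h.2.2.2.1, V.map_neg, ← h.2.2.2.1, add_assoc,
        V.map_add_eq_of_lt_left h3]
      exact ⟨h3, h2⟩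
  by_contra! h2
  have h3 : V c ≤ V (b + c) := le_of_not_gt fun h3 => (h2.1 (k h h3).1).not_gt h3
  have h4 : V c ≤ V (a + c) := le_of_not_gt fun h3 => (h2.2.1 (k h.perm.1 h3).1).not_gt h3
  have h5 : V b ≤ V (a + b) := le_of_not_gt fun h3 => (h2.2.2 (k h.perm.2 h3).1).not_gt h3
  have h6 : V a ≤ V (a + c) := le_of_not_gt fun h6 =>
    h4.not_gt (by rw [e (b := c) (c := a) (by rwa [add_comm])]; exact h6)
  refine (p h).not_ge ?_
  calc V a * (V b * V c) = V c * (V b * V a) := by ac_rfl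
    _ ≤ _ := mul_le_mul' h3 (mul_le_mul' h5 h6)

theorem exists_sgn (V : Valuation ℂ Γ) (h2 : V 2 = 1) : ∃ s : ℂ → ZMod 3, s 1 = 1 ∧
    (∀ a, s a ≠ 0) ∧ (∀ a b, V (a ^ 3 - b ^ 3) < V (b ^ 3) → s a = s b) ∧
    (∀ a b, V (a - b) < V b → s a = s b) ∧ ∀ a, a ≠ 0 → s (-a) = -s a := by
  classical
  let K : ℂ → Set ℂ := fun t => {u | V (u - t) < V t}
  have hK : ∀ t t', V (t - t') < V t' → K t = K t' := fun t t' h => Set.ext fun u => by
    have h1 := V.map_eq_of_sub_lt h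
    refine ⟨fun h3 => ?_, fun h3 => ?_⟩
    · simpa only [K, Set.mem_ofPred_eq, sub_add_sub_cancel] using V.map_add_lt (h1 ▸ h3 : V (u - t) < V t') h
    · simpa only [K, h1, Set.mem_ofPred_eq, sub_sub_sub_cancel_right] using V.map_sub_lt (h3 : V (u - t') < V t') h
  let s : ℂ → ZMod 3 := fun a => if WellOrderingRel (K (a ^ 3)) (K (-a ^ 3)) then 1 else -1
  have h0 : ∀ a, s a = 1 ∨ s a = -1 := fun a => ite_eq_or_eq _ _ _
  have h3 : ∀ a b, V (a ^ 3 - b ^ 3) < V (b ^ 3) → s a = s b := fun a b h => by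
    simp only [s]
    rw [hK _ _ h, hK (-a ^ 3) (-b ^ 3) (by rwa [V.map_neg, neg_sub_neg, V.map_sub_swap])]
  refine ⟨fun a => s a * s 1, ?_, fun a => ?_, fun a b h => congrArg (· * s 1) (h3 a b h),
    fun a b h => congrArg (· * s 1) (h3 a b ?_), fun a ha => ?_⟩
  · rcases h0 1 with h | h <;> simp [h]
  · rcases h0 a with h | h <;> rcases h0 1 with h' | h' <;> simp only [h, h', mul_one, ne_eq, one_ne_zero, not_false_eq_true, mul_neg, neg_eq_zero, neg_neg]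
  · have h1 := V.map_eq_of_sub_lt h
    have h4 : V (a ^ 2 + a * b + b ^ 2) ≤ V b ^ 2 :=
      V.map_add_le (V.map_add_le (by simp only [map_pow, h1, Std.le_refl]) (by simp only [map_mul, h1, sq, Std.le_refl])) (by simp only [map_pow, Std.le_refl])
    rw [show a ^ 3 - b ^ 3 = (a - b) * (a ^ 2 + a * b + b ^ 2) by ring, map_mul, map_pow,
      pow_succ' (V b)]
    exact mul_lt_mul_of_lt_of_le_of_nonneg_of_pos h h4 zero_le
      (pow_pos (zero_le.trans_lt h) 2)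
  · have h1 : K (a ^ 3) ≠ K (-a ^ 3) := fun h => by
      have h4 : a ^ 3 ∈ K (-a ^ 3) := h ▸ (by simp only [K, map_pow, Set.mem_ofPred_eq, sub_self, map_zero, zero_lt_iff, ne_eq, OfNat.ofNat_ne_zero, not_false_eq_true, pow_eq_zero_iff, map_eq_zero, ha])
      simp only [K, sub_neg_eq_add, Valuation.map_neg, map_pow, Set.mem_ofPred_eq, ← two_mul, map_mul, h2, one_mul, lt_self_iff_false] at h4
    rw [← neg_mul]
    simp only [s, Odd.neg_pow (by decide : Odd 3), neg_neg]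
    rcases trichotomous_of WellOrderingRel (K (a ^ 3)) (K (-a ^ 3)) with h | h | h
    · rw [if_pos h, if_neg (asymm h)]
    · exact absurd h h1
    · rw [if_pos h, if_neg (asymm h), neg_neg]

theorem exists_eps {Γ : Type} [LinearOrderedCommGroupWithZero Γ] {α : Type} (s : Finset α)
    (f : α → Γ) (h : ∀ a, f a < 1) : ∃ ε < 1, ∀ a ∈ s, f a ≤ ε := by
  classical
  induction s using Finset.induction_on with
  | empty => exact ⟨0, zero_lt_one, by simp⟩
  | insert a s _ ih =>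
    obtain ⟨ε, h1, h2⟩ := ih
    exact ⟨max (f a) ε, max_lt (h a) h1, Finset.forall_mem_insert _ _ _ |>.2
      ⟨le_max_left _ _, fun b hb => (h2 b hb).trans (le_max_right _ _)⟩⟩

end Pool.Agent.MP_5c7750_co.Th

end

-- part Merge
section

/-! Merging one centre into another, and the reduction to one component. -/

namespace Pool.Agent.MP_5c7750_co.Th

open Relation

variable {ι Γ : Type} [LinearOrderedCommGroupWithZero Γ]

theorem Tri.swap {d D a b c : ℂ} (h : Tri d D a b c) : Tri d D b a c :=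
  ⟨h.2.1, h.1, h.2.2.1, by linear_combination h.2.2.2.1, by linear_combination h.2.2.2.2⟩

theorem Tri.swap' {d D a b c : ℂ} (h : Tri d D a b c) : Tri d D a c b :=
  ⟨h.1, h.2.2.1, h.2.1, by linear_combination h.2.2.2.1, by linear_combination h.2.2.2.2⟩

theorem mul_lt {a b : Γ} (ha : a < 1) (hb : b ≤ 1) : a * b < 1 :=
  lt_of_le_of_lt (mul_le_of_le_one_right' hb) ha

theorem Mv.symm {z w : ι → ℂ} {I : Finset ι} {a b : ℂ} (h : Mv z w I a b) : Mv z w I b a := by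
  rcases h with rfl | ⟨i, hi, j, hj, c, h⟩
  · exact Or.inl (neg_neg a).symm
  · exact Or.inr ⟨i, hi, j, hj, c, h.swap⟩

theorem reach_symm {z w : ι → ℂ} {I : Finset ι} {a b : ℂ} (h : ReflTransGen (Mv z w I) a b) :
    ReflTransGen (Mv z w I) b a := rev (fun _ _ => Mv.symm) h

theorem reach_mono {z w : ι → ℂ} {I J : Finset ι} (hJ : J ⊆ I) {a b : ℂ}
    (h : ReflTransGen (Mv z w J) a b) : ReflTransGen (Mv z w I) a b := by
  induction h with
  | refl => exact .refl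
  | tail _ h ih =>
    exact ih.tail (h.imp_right fun ⟨i, hi, j, hj, h⟩ => ⟨i, hJ hi, j, hJ hj, h⟩)

theorem reach_ne {z w : ι → ℂ} {I : Finset ι} {a b : ℂ} (h : ReflTransGen (Mv z w I) a b)
    (ha : a ≠ 0) : b ≠ 0 := by
  induction h with
  | refl => exact ha
  | tail _ h ih =>
    rcases h with rfl | ⟨_, _, _, _, _, h⟩
    · exact neg_ne_zero.2 ih
    · exact h.2.1

theorem reach_adj {z w : ι → ℂ} {I : Finset ι} {u v : ι × ℂ} (h1 : u.1 ∈ I) (h2 : v.1 ∈ I)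
    (hu : u.2 ≠ 0) (hv : v.2 ≠ 0) (h : Adj z w u v) : ReflTransGen (Mv z w I) u.2 v.2 := by
  obtain ⟨g, hg⟩ := adj_tri hu hv h
  have h3 : Mv z w I u.2 (-v.2) := Or.inr ⟨_, h1, _, h2, g, hg.swap'⟩
  exact (ReflTransGen.single h3).tail (Or.inl (neg_neg _).symm)

theorem comp_red {z w : ι → ℂ} {I : Finset ι}
    (H : ∀ S : Finset (ι × ℂ), (∀ u ∈ S, u.1 ∈ I ∧ PF z w I u.2) →
      (∀ u ∈ S, ∀ v ∈ S, ReflTransGen (Mv z w I) u.2 v.2) →
      ∃ f : ι × ℂ → ZMod 3, ∀ u ∈ S, ∀ v ∈ S, Adj z w u v → f u ≠ f v)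
    (S : Finset (ι × ℂ)) (hS : ∀ u ∈ S, u.1 ∈ I ∧ PF z w I u.2) :
    ∃ f : ι × ℂ → ZMod 3, ∀ u ∈ S, ∀ v ∈ S, Adj z w u v → f u ≠ f v := by
  classical
  choose F hF using fun C : Set ℂ =>
    H (S.filter fun v => {b | ReflTransGen (Mv z w I) v.2 b} = C)
      (fun u hu => hS u (Finset.mem_filter.1 hu).1) fun u hu v hv => by
        have e := (Finset.mem_filter.1 hv).2.trans (Finset.mem_filter.1 hu).2.symm
        exact (Set.ext_iff.1 e v.2).1 ReflTransGen.refl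
  refine ⟨fun u => F {b | ReflTransGen (Mv z w I) u.2 b} u, fun u hu v hv h => ?_⟩
  have r := reach_adj (hS u hu).1 (hS v hv).1 (hS u hu).2.1 (hS v hv).2.1 h
  have e : {b | ReflTransGen (Mv z w I) v.2 b} = {b | ReflTransGen (Mv z w I) u.2 b} :=
    Set.ext fun b => ⟨fun h => r.trans h, fun h => (reach_symm r).trans h⟩
  simp only [e]
  exact hF _ u (Finset.mem_filter.2 ⟨hu, rfl⟩) v (Finset.mem_filter.2 ⟨hv, e⟩) h

section near

variable (V : Valuation ℂ Γ) {a b a' b' : ℂ}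

theorem near_add (h : V (a - a') < 1) (h' : V (b - b') < 1) : V (a + b - (a' + b')) < 1 := by
  convert V.map_add_lt h h' using 2
  ring

theorem near_sub (h : V (a - a') < 1) (h' : V (b - b') < 1) : V (a - b - (a' - b')) < 1 := by
  convert V.map_sub_lt h h' using 2
  ring

theorem near_mul (h : V (a - a') < 1) (h' : V (b - b') < 1) (ha : V a' ≤ 1) (hb : V b' ≤ 1) :
    V (a * b - a' * b') < 1 := by
  have h1 : V b ≤ 1 := by simpa only [sub_add_cancel] using V.map_add_le h'.le hb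
  have h2 : V ((a - a') * b) < 1 := by rw [map_mul]; exact mul_lt h h1
  have h3 : V ((b - b') * a') < 1 := by rw [map_mul]; exact mul_lt h' ha
  convert V.map_add_lt h2 h3 using 2
  ring

theorem near_inv (h : V (a - a') < 1) (ha : V a' = 1) : V (a⁻¹ - a'⁻¹) < 1 := by
  have h1 : V a = 1 := ha ▸ V.map_eq_of_sub_lt (ha ▸ h)
  have h2 : a ≠ 0 := fun h0 => by simp only [h0, map_zero, zero_ne_one] at h1
  have h3 : a' ≠ 0 := fun h0 => by simp only [h0, map_zero, zero_ne_one] at ha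
  rw [inv_sub_inv h2 h3, map_div₀, map_mul, h1, ha, mul_one, div_one, V.map_sub_swap]
  exact h

end near

theorem merge_step (V : Valuation ℂ Γ) {k : Subfield ℂ} (hk : QC k)
    (hV : ∀ a ∈ k, a ≠ 0 → V a = 1) {d D a b c d' D' a' : ℂ} (h : Tri d D a b c) (hd : d' ∈ k)
    (hD : D' ∈ k) (ha : a' ∈ k) (h0 : a' ≠ 0) (h1 : a' ≠ d') (h2 : a'⁻¹ ≠ D')
    (n1 : V (d - d') < 1) (n2 : V (D - D') < 1) (n3 : V (a - a') < 1) :
    ∃ b' ∈ k, V (b - b') < 1 ∧ ∃ c', Tri d' D' a' b' c' := by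
  obtain ⟨-, t2, t3, t4, t5⟩ := h
  have p0 : d' - a' ≠ 0 := sub_ne_zero.2 h1.symm
  have q0 : D' - a'⁻¹ ≠ 0 := sub_ne_zero.2 h2.symm
  have pk := sub_mem hd ha
  have qk := sub_mem hD (inv_mem ha)
  have np := near_sub V n1 n3
  have nq := near_sub V n2 (near_inv V n3 (hV _ ha h0))
  generalize hp : d' - a' = p at p0 pk np
  generalize hq : D' - a'⁻¹ = q at q0 qk nq
  have e1 : d - a = b + c := by linear_combination -t4
  have e2 : D - a⁻¹ = b⁻¹ + c⁻¹ := by linear_combination -t5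
  rw [e1] at np
  rw [e2] at nq
  have vq : V (b⁻¹ + c⁻¹) = 1 := hV _ qk q0 ▸ V.map_eq_of_sub_lt (hV _ qk q0 ▸ nq)
  have e3 : b⁻¹ + c⁻¹ ≠ 0 := fun h0 => by simp only [h0, map_zero, zero_ne_one] at vq
  have e4 : (b + c) * (b⁻¹ + c⁻¹)⁻¹ = b * c := by
    rw [mul_inv_eq_iff_eq_mul₀ e3]
    field_simp
    ring
  have nr := near_mul V np (near_inv V nq (hV _ qk q0)) (hV _ pk p0).le
    (hV _ (inv_mem qk) (inv_ne_zero q0)).le
  rw [e4] at nr
  obtain ⟨s, hs⟩ := IsAlgClosed.exists_pow_nat_eq (p ^ 2 - 4 * (p * q⁻¹)) two_pos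
  have key : ∀ b' c' : ℂ, b' + c' = p → b' * c' = p * q⁻¹ → b' ∈ k ∧ Tri d' D' a' b' c' := by
    intro b' c' s1 s2
    have s3 : b' * c' ≠ 0 := s2 ▸ mul_ne_zero p0 (inv_ne_zero q0)
    have s4 := left_ne_zero_of_mul s3
    have s5 := right_ne_zero_of_mul s3
    refine ⟨hk b' (-p) (p * q⁻¹) (neg_mem pk) (mul_mem pk (inv_mem qk))
      (by linear_combination b' * s1 - s2), h0, s4, s5, by linear_combination s1 - hp, ?_⟩
    have s6 : b'⁻¹ + c'⁻¹ = q := by
      rw [inv_add_inv s4 s5, s1, s2]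
      field_simp
    linear_combination s6 - hq
  have s1 : (p + s) / 2 + (p - s) / 2 = p := by ring
  have s2 : (p + s) / 2 * ((p - s) / 2) = p * q⁻¹ := by linear_combination -hs / 4
  generalize (p + s) / 2 = b' at s1 s2
  generalize (p - s) / 2 = c' at s1 s2
  obtain ⟨k1, k2⟩ := key b' c' s1 s2
  obtain ⟨k3, k4⟩ := key c' b' (by linear_combination s1) (by linear_combination s2)
  by_cases c1 : V (b - b') < 1
  · exact ⟨b', k1, c1, c', k2⟩
  by_cases c2 : V (b - c') < 1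
  · exact ⟨c', k3, c2, b', k4⟩
  exfalso
  rw [not_lt] at c1 c2
  have m1 : V b ≤ V (b - b') := by
    simpa only [sub_add_cancel] using V.map_add_le (le_refl (V (b - b'))) ((hV _ k1 k2.2.1).le.trans c1)
  have m2 : V ((b + c - p) * b) < V (b - b') := by
    rw [map_mul]
    exact (mul_lt_of_lt_one_left ((Valuation.pos_iff V).2 t2) np).trans_le m1
  have m3 := V.map_sub_lt m2 (nr.trans_le c1)
  have e5 : (b + c - p) * b - (b * c - p * q⁻¹) = (b - b') * (b - c') := by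
    linear_combination b * s1 - s2
  rw [e5, map_mul] at m3
  exact absurd m3 (not_lt.2 (le_mul_of_one_le_right' c2))

theorem merge [DecidableEq ι] {z w : ι → ℂ} (h : AlgebraicIndependent ℚ (Sum.elim z w))
    {I : Finset ι} {y a0 : ι} (ha : a0 ∈ I) (hy : a0 ≠ y) {f0 : ℂ} (hf : PF z w I f0)
    (hk : f0 ∈ cl (Sum.elim z w '' {j | j ≠ .inl y ∧ j ≠ .inr y}))
    (ih : ∀ S : Finset (ι × ℂ), (∀ u ∈ S, u.1 ∈ I.erase y ∧ PF z w (I.erase y) u.2) →
      ∃ f : ι × ℂ → ZMod 3, ∀ u ∈ S, ∀ v ∈ S, Adj z w u v → f u ≠ f v)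
    (S : Finset (ι × ℂ)) (hS : ∀ u ∈ S, u.1 ∈ I ∧ ReflTransGen (Mv z w I) f0 u.2) :
    ∃ f : ι × ℂ → ZMod 3, ∀ u ∈ S, ∀ v ∈ S, Adj z w u v → f u ≠ f v := by
  classical
  have kz : ∀ i, i ≠ y → z i ∈ cl (Sum.elim z w '' {j | j ≠ .inl y ∧ j ≠ .inr y}) := fun i hi =>
    sub_cl ⟨.inl i, ⟨by simpa using hi, by simp⟩, rfl⟩
  have kw : ∀ i, i ≠ y → w i ∈ cl (Sum.elim z w '' {j | j ≠ .inl y ∧ j ≠ .inr y}) := fun i hi =>
    sub_cl ⟨.inr i, ⟨by simp, by simpa using hi⟩, rfl⟩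
  obtain ⟨O, hV, hO⟩ := exists_V' h {j | j ≠ .inl y ∧ j ≠ .inr y}
    (Sum.elim (fun _ => z a0) fun _ => w a0) (by
      rintro (i | i)
      · exact kz _ hy
      · exact kw _ hy)
  have hq := (cl_ac (Sum.elim z w '' {j | j ≠ .inl y ∧ j ≠ .inr y})).qc
  generalize cl (Sum.elim z w '' {j | j ≠ .inl y ∧ j ≠ .inr y}) = k at hk kz kw hV hq
  obtain ⟨bar, b1, b2, b3, b4⟩ : ∃ bar : ι → ι, (∀ i, bar i ≠ y) ∧ (∀ i ∈ I, bar i ∈ I) ∧
      (∀ i, O.valuation (z i - z (bar i)) < 1) ∧ ∀ i, O.valuation (w i - w (bar i)) < 1 := by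
    refine ⟨fun i => if i = y then a0 else i, fun i => ?_, fun i hi => ?_, fun i => ?_,
      fun i => ?_⟩ <;> by_cases e : i = y <;> simp only [e, if_true, if_false, sub_self, map_zero,
        zero_lt_one, ha, hy, ne_eq, not_false_iff]
    · exact hi
    · exact hO (.inl y) (by simp)
    · exact hO (.inr y) (by simp)
  have b5 : ∀ i ∈ I, bar i ∈ I.erase y := fun i hi => Finset.mem_erase.2 ⟨b1 i, b2 i hi⟩
  have le : ∀ a ∈ k, O.valuation a ≤ 1 := fun a ha => by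
    by_cases e : a = 0
    · simp only [e, map_zero, zero_le]
    · exact (hV a ha e).le
  have main : ∀ b, ReflTransGen (Mv z w I) f0 b → ∃ b' ∈ k, O.valuation (b - b') < 1 ∧
      ReflTransGen (Mv z w (I.erase y)) f0 b' := by
    intro b hb
    induction hb with
    | refl => exact ⟨f0, hk, by simp only [sub_self, map_zero, zero_lt_one], .refl⟩
    | tail _ h ih =>
      obtain ⟨a', i1, i2, i3⟩ := ih
      rcases h with rfl | ⟨i, hi, j, hj, c, h⟩
      · refine ⟨-a', neg_mem i1, ?_, i3.tail (Or.inl rfl)⟩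
        rwa [← neg_sub', Valuation.map_neg]
      · have i4 := reach_ne i3 hf.1
        have i5 : a' ≠ z (bar j) - z (bar i) ∧ a'⁻¹ ≠ w (bar j) - w (bar i) := by
          by_cases e : bar i = bar j
          · simpa [e] using i4
          · exact hf.2 a' (reach_mono (Finset.erase_subset _ _) i3) _ (b2 i hi) _ (b2 j hj) e
        obtain ⟨b', j1, j2, c', j3⟩ := merge_step O.valuation hq hV h
          (sub_mem (kz _ (b1 j)) (kz _ (b1 i))) (sub_mem (kw _ (b1 j)) (kw _ (b1 i))) i1 i4 i5.1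
          i5.2 (near_sub _ (b3 j) (b3 i)) (near_sub _ (b4 j) (b4 i)) i2
        exact ⟨b', j1, j2, i3.tail (Or.inr ⟨_, b5 i hi, _, b5 j hj, c', j3⟩)⟩
  choose! g g1 g2 g3 using main
  obtain ⟨f, hf'⟩ := ih (S.image fun u => (bar u.1, g u.2)) (by
    intro v hv
    obtain ⟨u, hu, rfl⟩ := Finset.mem_image.1 hv
    have r := g3 _ (hS u hu).2
    exact ⟨b5 _ (hS u hu).1, reach_ne r hf.1, fun b hb i hi j hj e =>
      hf.2 b (reach_mono (Finset.erase_subset _ _) (r.trans hb)) i (Finset.mem_of_mem_erase hi) j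
        (Finset.mem_of_mem_erase hj) e⟩)
  refine ⟨fun u => f (bar u.1, g u.2), fun u hu v hv e => hf' _ (Finset.mem_image_of_mem _ hu) _
    (Finset.mem_image_of_mem _ hv) ?_⟩
  have pt : ∀ u ∈ S, (z (bar u.1) + g u.2 ∈ k ∧ w (bar u.1) + (g u.2)⁻¹ ∈ k) ∧
      O.valuation (z u.1 + u.2 - (z (bar u.1) + g u.2)) < 1 ∧
      O.valuation (w u.1 + u.2⁻¹ - (w (bar u.1) + (g u.2)⁻¹)) < 1 := fun u hu =>
    have r := (hS u hu).2
    ⟨⟨add_mem (kz _ (b1 _)) (g1 _ r), add_mem (kw _ (b1 _)) (inv_mem (g1 _ r))⟩,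
      near_add _ (b3 _) (g2 _ r), near_add _ (b4 _)
        (near_inv _ (g2 _ r) (hV _ (g1 _ r) (reach_ne (g3 _ r) hf.1)))⟩
  obtain ⟨⟨u1, u2⟩, u3, u4⟩ := pt u hu
  obtain ⟨⟨v1, v2⟩, v3, v4⟩ := pt v hv
  have n := near_mul _ (near_sub _ u3 v3) (near_sub _ u4 v4) (le _ (sub_mem u1 v1))
    (le _ (sub_mem u2 v2))
  unfold Adj at e ⊢
  rw [e] at n
  by_contra e'
  exact n.ne (hV _ (sub_mem k.one_mem (mul_mem (sub_mem u1 v1) (sub_mem u2 v2)))
    (sub_ne_zero.2 fun h => e' h.symm))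

end Pool.Agent.MP_5c7750_co.Th

end

-- part Main
section

/-! Minimal sets that are not list colourable, and the induction on the number of centres. -/

namespace Pool.Agent.MP_5c7750_co.Th

open Finset Relation

variable {α ι Γ : Type} [LinearOrderedCommGroupWithZero Γ] {R : α → α → Prop} {c : α → ZMod 3}
  {S : Finset α} {lab : α → ι} {I : Finset ι} {y : ι} {z w : ι → ℂ} {e : α → ℂ}
  {V : Valuation ℂ Γ}

/-- `S` has a proper colouring that avoids the colour `c u` at `u`. -/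
def LC (R : α → α → Prop) (c : α → ZMod 3) (S : Finset α) : Prop :=
  ∃ f : α → ZMod 3, ∀ u ∈ S, f u ≠ c u ∧ ∀ v ∈ S, R u v → f u ≠ f v

/-- a minimal set of vertices without list colouring; the label `y` is separated. -/
structure St (R : α → α → Prop) (c : α → ZMod 3) (S : Finset α) (lab : α → ι) (I : Finset ι)
    (y : ι) (z w : ι → ℂ) (e : α → ℂ) : Prop where
  mn : Minimal (fun S => ¬ LC R c S) S
  lb : ∀ u ∈ S, lab u ∈ I ∧ (lab u ≠ y ∧ c u = 0 ∨ lab u = y ∧ c u = 1)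
  ed : ∀ u ∈ S, ∀ v ∈ S, R u v → R v u ∧
    ∃ g, Tri (z (lab v) - z (lab u)) (w (lab v) - w (lab u)) (e u) (-e v) g

theorem St.swap (h : St R c S lab I y z w e) : St R c S lab I y w z fun u => (e u)⁻¹ :=
  ⟨h.mn, h.lb, fun u hu v hv r => ⟨(h.ed u hu v hv r).1,
    (h.ed u hu v hv r).2.elim fun _ hg => ⟨_, inv_neg (a := e v) ▸ hg.inv⟩⟩⟩

theorem St.sub (h : St R c S lab I y z w e) {P : α → Prop} [DecidablePred P] {u : α} (hu : u ∈ S)
    (hp : ¬ P u) : LC R c (S.filter P) := by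
  by_contra h1
  exact hp (mem_filter.1 (h.mn.2 h1 (filter_subset _ _) hu)).2

theorem St.glue (h : St R c S lab I y z w e) (P : α → Prop) (f0 : α → ZMod 3)
    (h1 : ∀ u ∈ S, P u → f0 u ≠ c u ∧ ∀ v ∈ S, R u v → (P v → f0 u ≠ f0 v) ∧ (P v ∨ f0 u = c v)) :
    ∀ u ∈ S, ¬ P u := fun u hu hp => by
  classical
  obtain ⟨f, hf⟩ := h.sub (P := fun u => ¬ P u) hu (not_not.2 hp)
  simp only [mem_filter, and_imp] at hf
  refine h.mn.1 ⟨fun u => if P u then f0 u else f u, fun u hu => ?_⟩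
  by_cases p : P u
  · refine ⟨by simpa [p] using (h1 u hu p).1, fun v hv r => ?_⟩
    by_cases q : P v
    · simpa [p, q] using ((h1 u hu p).2 v hv r).1 q
    · simpa [p, q, ((h1 u hu p).2 v hv r).2.resolve_left q] using (hf v hv q).1.symm
  · refine ⟨by simpa [p] using (hf u hu p).1, fun v hv r => ?_⟩
    by_cases q : P v
    · simpa [p, q, ((h1 v hv q).2 u hu (h.ed u hu v hv r).1).2.resolve_left p] using (hf u hu p).1
    · simpa [p, q] using (hf u hu p).2 v hv q r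

/-- a sign that depends on the leading term of the cube. -/
def Sg (V : Valuation ℂ Γ) (s : ℂ → ZMod 3) : Prop :=
  s 1 = 1 ∧ (∀ a, s a ≠ 0) ∧ (∀ a b, V (a ^ 3 - b ^ 3) < V (b ^ 3) → s a = s b) ∧
    (∀ a b, V (a - b) < V b → s a = s b) ∧ ∀ a, a ≠ 0 → s (-a) = -s a

theorem St.same (h : St R c S lab I y z w e) {ε ε' : Γ}
    (hτ : ∀ i ∈ I, i ≠ y → V (z i) ≤ ε ∧ V (w i) ≤ ε') {u v : α} (hu : u ∈ S) (hv : v ∈ S)
    (hc : c u = c v) : V (z (lab v) - z (lab u)) ≤ ε ∧ V (w (lab v) - w (lab u)) ≤ ε' := by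
  obtain ⟨a1, ⟨a2, a3⟩ | ⟨a2, a3⟩⟩ := h.lb u hu <;> obtain ⟨b1, ⟨b2, b3⟩ | ⟨b2, b3⟩⟩ := h.lb v hv
  · exact ⟨V.map_sub_le (hτ _ b1 b2).1 (hτ _ a1 a2).1, V.map_sub_le (hτ _ b1 b2).2 (hτ _ a1 a2).2⟩
  · exact absurd (a3.symm.trans (hc.trans b3)) (by decide)
  · exact absurd (a3.symm.trans (hc.trans b3)) (by decide)
  · simp only [b2, a2, sub_self, map_zero, zero_le, and_self]

theorem St.cross (h : St R c S lab I y z w e) {u v : α} (hu : u ∈ S) (hv : v ∈ S)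
    (hc : c u ≠ c v) : ∃ i ∈ I, i ≠ y ∧ (lab u = i ∧ lab v = y ∧ c v - c u = 1 ∨
      lab u = y ∧ lab v = i ∧ c v - c u = -1) := by
  obtain ⟨a1, ⟨a2, a3⟩ | ⟨a2, a3⟩⟩ := h.lb u hu <;> obtain ⟨b1, ⟨b2, b3⟩ | ⟨b2, b3⟩⟩ := h.lb v hv
  · exact (hc (a3.trans b3.symm)).elim
  · exact ⟨_, a1, a2, Or.inl ⟨rfl, b2, by simp [a3, b3]⟩⟩
  · exact ⟨_, b1, b2, Or.inr ⟨a2, rfl, by simp [a3, b3]⟩⟩
  · exact (hc (a3.trans b3.symm)).elim

theorem St.mid (h : St R c S lab I y z w e) {s : ℂ → ZMod 3} (hs : Sg V s) {ε ε' : Γ}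
    (hε : ε * ε' < 1) (hτ : ∀ i ∈ I, i ≠ y → V (z i) ≤ ε ∧ V (w i) ≤ ε')
    (hx : ∀ u ∈ S, ∀ v ∈ S, R u v → c u ≠ c v → s (e u) = c v - c u ∨
      V (e v) = V (e u) ∧ s (e u) = s (e v) ∨
        (ε < V (e v) ∧ V (e v) * ε' < 1) ∧ s (e v) = c u - c v) :
    ∀ u ∈ S, V (e u) ≤ ε ∨ 1 ≤ V (e u) * ε' := fun u hu => by
  have := h.glue (fun u => ε < V (e u) ∧ V (e u) * ε' < 1) (fun u => c u + s (e u))
    (fun u hu p => ⟨by simpa using hs.2.1 _, fun v hv r => ?_⟩) u hu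
  · simpa only [not_and_or, not_lt] using this
  have n1 := hs.2.1 (e u)
  have n2 := hs.2.1 (e v)
  by_cases hc : c u = c v
  · obtain ⟨g, hg⟩ := (h.ed u hu v hv r).2
    obtain ⟨a1, a2⟩ := (hg.zone V (h.same hτ hu hv hc).1 (h.same hτ hu hv hc).2 hε).2.2 p.1 p.2
    rw [V.map_neg] at a1
    have a3 := hs.2.2.1 _ _ a2
    rw [hs.2.2.2.2 _ (neg_ne_zero.1 hg.2.1)] at a3
    refine ⟨fun _ => ?_, Or.inl (a1 ▸ p)⟩
    rw [hc, a3]
    revert n2
    generalize s (e v) = a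
    generalize c v = b
    decide +revert
  · rcases hx u hu v hv r hc with a1 | ⟨a1, a2⟩ | ⟨a1, a2⟩
    · exact ⟨fun _ => by simpa [a1] using n2, Or.inr (by simp [a1])⟩
    · exact ⟨fun _ => by simpa [a2] using hc, Or.inl (a1 ▸ p)⟩
    · exact ⟨fun _ => by simpa [a2] using n1, Or.inl a1⟩

theorem St.clus (h : St R c S lab I y z w e) (h2 : V 2 = 1) {τ : Γ} (t1 : τ < 1)
    (hτ : ∀ i ∈ I, i ≠ y → V (z i) ≤ τ ∧ V (w i) ≤ τ) (hz : V (z y - 1) < 1)
    (hw : V (w y - 1) < 1) : (∀ u ∈ S, V (e u) ≤ τ) ∨ ∀ u ∈ S, 1 ≤ V (e u) * τ := by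
  classical
  obtain ⟨s, hs⟩ := exists_sgn V h2
  have t2 := mul_lt t1 t1.le
  have hx : ∀ u ∈ S, ∀ v ∈ S, R u v → c u ≠ c v → V (e u) = 1 ∧ s (e u) = c v - c u ∨
      V (e v) = V (e u) ∧ s (e u) = s (e v) ∨ V (e v) = 1 ∧ s (e v) = c u - c v := by
    intro u hu v hv r hc
    obtain ⟨g, hg⟩ := (h.ed u hu v hv r).2
    obtain ⟨η, a1, a2, a3, a4⟩ : ∃ η : ℂ, η * η = 1 ∧ s η = c v - c u ∧
        V (z (lab v) - z (lab u) - η) < 1 ∧ V (w (lab v) - w (lab u) - η) < 1 := by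
      obtain ⟨i, i1, i2, ⟨a1, a2, a3⟩ | ⟨a1, a2, a3⟩⟩ := h.cross hu hv hc <;> rw [a1, a2, a3]
      · refine ⟨1, one_mul _, hs.1, ?_, ?_⟩ <;> rw [sub_right_comm]
        exacts [V.map_sub_lt hz ((hτ i i1 i2).1.trans_lt t1),
          V.map_sub_lt hw ((hτ i i1 i2).2.trans_lt t1)]
      · refine ⟨-1, by simp, by rw [hs.2.2.2.2 1 one_ne_zero, hs.1], ?_, ?_⟩ <;>
          rw [sub_sub, ← sub_eq_add_neg]
        exacts [V.map_sub_lt ((hτ i i1 i2).1.trans_lt t1) hz,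
          V.map_sub_lt ((hτ i i1 i2).2.trans_lt t1) hw]
    generalize z (lab v) - z (lab u) = d at *
    generalize w (lab v) - w (lab u) = D at *
    have a5 : V η = 1 := by
      rcases mul_self_eq_one_iff.1 a1 with rfl | rfl <;> simp only [map_one, Valuation.map_neg]
    have a6 : V d = 1 := (V.map_eq_of_sub_lt (a5 ▸ a3)).trans a5
    have a7 : s d = c v - c u := (hs.2.2.2.1 _ _ (a5 ▸ a3)).trans a2
    have a8 : V (d * D - 1) < 1 := by
      rw [show d * D - 1 = (D - η) * d + (d - η) * η by linear_combination a1]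
      refine V.map_add_lt ?_ ?_ <;> rw [V.map_mul]
      exacts [mul_lt a4 a6.le, mul_lt a3 a5.le]
    have a9 := hs.2.2.2.2 _ (neg_ne_zero.1 hg.2.1)
    rcases hg.unit V a8 with ⟨b, -⟩ | ⟨b, -⟩ | ⟨-, b⟩
    · exact Or.inl ⟨(V.map_eq_of_sub_lt b).trans a6, (hs.2.2.2.1 _ _ b).trans a7⟩
    · refine Or.inr (Or.inr ⟨(V.map_neg _).symm.trans ((V.map_eq_of_sub_lt b).trans a6), ?_⟩)
      linear_combination a9 - hs.2.2.2.1 _ _ b - a7
    · rw [V.map_neg, ← sub_eq_add_neg] at b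
      exact Or.inr (Or.inl ⟨(V.map_eq_of_sub_lt b).symm, hs.2.2.2.1 _ _ b⟩)
  have h3 := h.mid hs t2 hτ fun u hu v hv r hc => (hx u hu v hv r hc).imp And.right
    (Or.imp_right (And.imp_left fun h => by simp [h, t1]))
  have h4 : ∀ u ∈ S, V (e u) ≠ 1 := fun u hu h => by simpa only [h, t1.not_ge, one_mul, or_self] using h3 u hu
  refine or_iff_not_imp_left.2 fun h5 => ?_
  simp only [not_forall] at h5
  obtain ⟨u0, hu0, h5⟩ := h5
  obtain ⟨f, hf⟩ := h.sub (P := fun u => V (e u) ≤ τ) hu0 h5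
  simp only [mem_filter, and_imp] at hf
  refine fun u hu => (h3 u hu).resolve_left (h.glue _ f (fun u hu p => ⟨(hf u hu p).1,
    fun v hv r => ⟨fun q => (hf u hu p).2 v hv q r, Or.inl ?_⟩⟩) u hu)
  by_cases hc : c u = c v
  · obtain ⟨g, hg⟩ := (h.ed u hu v hv r).2
    simpa only [Valuation.map_neg] using (hg.zone V (h.same hτ hu hv hc).1 (h.same hτ hu hv hc).2 t2).1 p
  · rcases hx u hu v hv r hc with a | a | a
    exacts [(h4 u hu a.1).elim, a.1 ▸ p, (h4 v hv a.1).elim]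

theorem St.gap (h : St R c S lab I y z w e) (h2 : V 2 = 1) {τ ρ : Γ} (t1 : τ < ρ) (t2 : ρ ≤ 1)
    (hτ : ∀ i ∈ I, i ≠ y → V (z i) ≤ τ ∧ V (w i) ≤ 1) (hz : ρ ≤ V (z y))
    (hw : V (w y) ≤ 1) (he : ∀ u ∈ S, V (e u) < ρ) : ∀ u ∈ S, V (e u) ≤ τ := by
  obtain ⟨s, hs⟩ := exists_sgn V h2
  have p0 := zero_le.trans_lt t1
  have t3 : 1 ≤ ρ⁻¹ := (one_le_inv₀ p0).2 t2
  have t4 : ∀ a, a < ρ → a * ρ⁻¹ < 1 := fun a h => (mul_inv_lt_iff₀ p0).2 (by rwa [one_mul])
  refine fun u hu => (h.mid hs (t4 _ t1) (fun i i1 i2 => (hτ i i1 i2).imp_right fun h => h.trans t3)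
    (fun u hu v hv r hc => Or.inr (Or.inl ?_)) u hu).resolve_right (t4 _ (he u hu)).not_ge
  obtain ⟨g, g1, g2, g3, g4, g5⟩ := (h.ed u hu v hv r).2
  obtain ⟨a1, a2⟩ : ρ ≤ V (z (lab v) - z (lab u)) ∧ V (w (lab v) - w (lab u)) ≤ 1 := by
    obtain ⟨i, i1, i2, ⟨a1, a2, -⟩ | ⟨a1, a2, -⟩⟩ := h.cross hu hv hc <;> rw [a1, a2]
    · exact ⟨by rwa [V.map_sub_eq_of_lt_left ((hτ i i1 i2).1.trans_lt (t1.trans_le hz))],
        V.map_sub_le hw (hτ i i1 i2).2⟩
    · exact ⟨by rwa [V.map_sub_eq_of_lt_right ((hτ i i1 i2).1.trans_lt (t1.trans_le hz))],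
        V.map_sub_le (hτ i i1 i2).2 hw⟩
  have a3 : ρ ≤ V g := not_lt.1 fun h => a1.not_gt
    (g4 ▸ V.map_add_lt (V.map_add_lt (he u hu) ((V.map_neg _).trans_lt (he v hv))) h)
  have a4 : V (e u - e v) < V (e v) := by
    have a5 := neg_ne_zero.1 g2
    rw [show e u - e v = e u * (g⁻¹ - (w (lab v) - w (lab u))) * e v by
      rw [← g5]; field_simp; ring, V.map_mul, V.map_mul]
    refine mul_lt_of_lt_one_left (zero_lt_iff.2 (V.ne_zero_iff.2 a5))
      ((mul_le_mul' le_rfl (V.map_sub_le ?_ (a2.trans t3))).trans_lt (t4 _ (he u hu)))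
    rw [map_inv₀]
    exact inv_anti₀ p0 a3
  exact ⟨(V.map_eq_of_sub_lt a4).symm, hs.2.2.2.1 _ _ a4⟩

theorem St.nocross (h : St R c S lab I y z w e) (hi : AlgebraicIndependent ℚ (Sum.elim z w))
    (hV : Function.Surjective V) (hn : ∀ n : ℕ, n ≠ 0 → V n = 1) {τ : Γ} (t0 : τ ≠ 0) (t1 : τ < 1)
    (hτ : ∀ i ∈ I, i ≠ y → V (z i) ≤ τ ∧ V (w i) ≤ τ) (hw : V (w y - 1) < 1)
    (hO : ∀ V' : Valuation ℂ Γ, V' 2 = 1 → ∀ ε ε' : Γ, ε * ε' < 1 →
      (∀ i ∈ I, V' (z i) ≤ ε ∧ V' (w i) ≤ ε') → ∀ u ∈ S, V' (e u) ≤ ε ∨ 1 ≤ V' (e u) * ε')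
    (h0 : ∀ u ∈ S, V (e u) ≤ τ) : ∀ u ∈ S, ∀ v ∈ S, R u v → c u = c v := by
  obtain ⟨T, k1, hx, hT⟩ := exists_max (not_mem_cl hi (s := {j | j ≠ .inl y}) (j := .inl y) (by simp))
  rw [Sum.elim_inl] at hx hT
  have k2 : ∀ i, i ≠ y → z i ∈ cl T := fun i h => k1 (sub_cl ⟨.inl i, by simpa using h, rfl⟩)
  have k3 : ∀ i, w i ∈ cl T := fun i => k1 (sub_cl ⟨.inr i, by simp, rfl⟩)
  have k4 : V (w y) ≤ 1 := by simpa only [sub_add_cancel] using V.map_add_le hw.le V.map_one.le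
  let q := S.equivFin
  have k5 : ∀ {P : α → Prop}, (∀ u ∈ S, P u) ↔ ∀ i, P (q.symm i) :=
    ⟨fun h i => h _ (q.symm i).2, fun h u hu => by simpa using h (q ⟨u, hu⟩)⟩
  have k6 : ∀ (j : ℂ →ₐ[cl T] ℂ) a, a ∈ cl T → j a = a := fun j a h => j.commutes ⟨a, h⟩
  have k7 : ∀ j : ℂ →ₐ[cl T] ℂ, (V.comap (j : ℂ →+* ℂ)) 2 = 1 ∧ ∀ i ∈ I, i ≠ y →
      (V.comap (j : ℂ →+* ℂ)) (z i) ≤ τ ∧ (V.comap (j : ℂ →+* ℂ)) (w i) ≤ τ := fun j =>
    ⟨by simpa only [Valuation.comap_apply, map_ofNat, Nat.cast_ofNat] using hn 2 two_ne_zero, fun i i1 i2 => by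
      simpa only [Valuation.comap_apply, RingHom.coe_coe, k6 j _ (k2 i i2), k6 j _ (k3 i)] using hτ i i1 i2⟩
  have k8 : ∀ u ∈ S, e u ∈ cl T := k5.2 (liou (e := fun i => e (q.symm i)) hV hn hx hT t0 t1
    (k5.1 h0) (fun j φ a1 a2 a3 => ?_) fun j a1 => ?_)
  · intro u hu v hv r
    by_contra hc
    obtain ⟨g, -, -, -, g4, g5⟩ := (h.ed u hu v hv r).2
    have a1 := k8 u hu
    have a2 := neg_mem (k8 v hv)
    have a3 : g ∈ cl T := by
      rw [← inv_inv g, eq_sub_of_add_eq' g5]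
      exact inv_mem (sub_mem (sub_mem (k3 _) (k3 _)) (add_mem (inv_mem a1) (inv_mem a2)))
    have a4 := g4 ▸ add_mem (add_mem a1 a2) a3
    obtain ⟨i, -, i2, ⟨b1, b2, -⟩ | ⟨b1, b2, -⟩⟩ := h.cross hu hv hc <;> rw [b1, b2] at a4
    · exact hx (by simpa using add_mem a4 (k2 i i2))
    · exact hx (by simpa using sub_mem (k2 i i2) a4)
  · refine or_iff_not_imp_right.2 fun a4 => ?_
    simp only [not_exists, not_lt] at a4
    have a5 : V.comap (j : ℂ →+* ℂ) (w y) ≤ 1 := by simpa only [Valuation.comap_apply, RingHom.coe_coe, k6 j _ (k3 y)] using k4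
    rcases lt_or_gt_of_ne a3 with a6 | a6
    · exact fun i => (h.gap (k7 j).1 (lt_min (a1.trans a6) t1) (min_le_right _ _)
        (fun i i1 i2 => ((k7 j).2 i i1 i2).imp_right fun h => h.trans t1.le) (min_le_left _ _) a5
        (k5.2 fun i => (a4 i).trans_lt (lt_min a6 a2)) _ (q.symm i).2).trans_lt a1
    · refine fun i => ((hO _ (k7 j).1 (max τ (V (j (z y)))) 1 (by simp only [mul_one, sup_lt_iff, t1, a6.trans a2, and_self])
        (fun i i1 => ?_) _ (q.symm i).2).resolve_right ?_).trans_lt (max_lt a1 a6)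
      · rcases eq_or_ne i y with rfl | i2
        · exact ⟨le_max_right _ _, a5⟩
        · exact ((k7 j).2 i i1 i2).imp (fun h => h.trans (le_max_left _ _)) fun h => h.trans t1.le
      · rw [mul_one]
        exact ((a4 i).trans_lt a2).not_ge
  · exact (h.clus (k7 j).1 t1 (k7 j).2 (by simpa only [Valuation.comap_apply, RingHom.coe_coe, map_sub, map_one] using a1)
      (by simpa only [Valuation.comap_apply, RingHom.coe_coe, map_sub, k6 j _ (k3 y), map_one] using hw)).imp k5.1 k5.1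

theorem eps' (h : ∀ i, i ≠ y → V (z i) < 1 ∧ V (w i) < 1) (I : Finset ι) :
    ∃ τ < 1, ∀ i ∈ I, i ≠ y → V (z i) ≤ τ ∧ V (w i) ≤ τ := by
  classical
  obtain ⟨τ, t1, t2⟩ := exists_eps I (fun i => if i = y then 0 else max (V (z i)) (V (w i)))
    fun i => by
      split_ifs with hi
      exacts [zero_lt_one, max_lt (h i hi).1 (h i hi).2]
  exact ⟨τ, t1, fun i i1 i2 => by simpa only [i2, ↓ reduceIte, sup_le_iff] using t2 i i1⟩

theorem St.alg (h : St R c S lab I y z w e) (hi : AlgebraicIndependent ℚ (Sum.elim z w))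
    (hc : ∀ u ∈ S, ∀ v ∈ S, R u v → c u = c v) {u : α} (hu : u ∈ S) :
    e u ∈ cl (Sum.elim z w '' {j | j ≠ .inl y ∧ j ≠ .inr y}) := by
  by_contra h1
  obtain ⟨O, o1, o2⟩ := exists_V (((hi.comp
    (Subtype.val : {j | j ≠ .inl y ∧ j ≠ .inr y} → ι ⊕ ι)
    Subtype.val_injective).option_iff_transcendental (e u)).2 fun h2 => h1 (by
      rw [Set.range_comp, Subtype.range_coe] at h2
      exact mem_algebraicClosure_iff.2 (IntermediateField.isAlgebraic_adjoin_iff.2 h2)))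
    fun o => o.elim 1 fun _ => 0
  obtain ⟨τ, t1, t2⟩ := eps' (V := O.valuation) (y := y) (z := z) (w := w) (fun i hi =>
    ⟨by simpa only [ne_eq, Set.mem_ofPred_eq, Option.elim_some, Function.comp_apply, Sum.elim_inl, eq_ratCast, Rat.cast_zero, sub_zero] using o2 (some ⟨.inl i, by simpa using hi⟩),
      by simpa only [ne_eq, Set.mem_ofPred_eq, Option.elim_some, Function.comp_apply, Sum.elim_inr, eq_ratCast, Rat.cast_zero, sub_zero] using o2 (some ⟨.inr i, by simpa using hi⟩)⟩) I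
  obtain ⟨s, hs⟩ := exists_sgn O.valuation (by simpa using o1 2 two_ne_zero)
  have h2 : O.valuation (e u) = 1 :=
    (O.valuation.map_eq_of_sub_lt (x := 1) (by simpa only [map_one, ne_eq, Set.mem_ofPred_eq, Option.elim_none, eq_ratCast, Rat.cast_one] using o2 none)).trans O.valuation.map_one
  simpa [h2, t1.not_ge] using h.mid hs (mul_lt t1 t1.le) t2
    (fun u hu v hv r h => (h (hc u hu v hv r)).elim) u hu

theorem two (h2 : V 2 = 1) {ε ε' : Γ} (hε : ε * ε' < 1)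
    (hτ : ∀ i ∈ I, ∀ j ∈ I, V (z j - z i) ≤ ε ∧ V (w j - w i) ≤ ε') {S : Finset (ι × ℂ)} {a : ℂ}
    (hS : ∀ u ∈ S, u.1 ∈ I ∧ ReflTransGen (Mv z w I) a u.2) (a1 : ε < V a) (a2 : V a * ε' < 1) :
    ∃ f : ι × ℂ → ZMod 3, ∀ u ∈ S, ∀ v ∈ S, Adj z w u v → f u ≠ f v := by
  obtain ⟨s, hs⟩ := exists_sgn V h2
  have k : ∀ b, ReflTransGen (Mv z w I) a b → V b = V a := fun b hb => by
    induction hb with
    | refl => rfl
    | tail _ h ih =>
      rcases h with rfl | ⟨i, hi, j, hj, g, h⟩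
      · rwa [V.map_neg]
      · exact ((h.zone V (hτ i hi j hj).1 (hτ i hi j hj).2 hε).2.2 (ih ▸ a1) (ih ▸ a2)).1.trans ih
  have k0 : ∀ u ∈ S, u.2 ≠ 0 := fun u hu h => by
    have := k _ (hS u hu).2
    rw [h, V.map_zero] at this
    exact (this ▸ a1).not_ge zero_le
  refine ⟨fun u => s u.2, fun u hu v hv r => ?_⟩
  obtain ⟨g, hg⟩ := adj_tri (k0 u hu) (k0 v hv) r
  have a3 := hτ _ (hS u hu).1 _ (hS v hv).1
  have a4 := k _ (hS u hu).2
  change s u.2 ≠ s v.2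
  rw [hs.2.2.1 _ _ ((hg.swap'.zone V a3.1 a3.2 hε).2.2 (a4 ▸ a1) (a4 ▸ a2)).2,
    hs.2.2.2.2 _ (k0 v hv)]
  have n := hs.2.1 v.2
  revert n
  generalize s v.2 = b
  decide +revert

theorem core3 (h : AlgebraicIndependent ℚ (Sum.elim z w)) (I : Finset ι)
    (S : Finset (ι × ℂ)) (hS : ∀ u ∈ S, u.1 ∈ I ∧ PF z w I u.2) :
    ∃ f : ι × ℂ → ZMod 3, ∀ u ∈ S, ∀ v ∈ S, Adj z w u v → f u ≠ f v := by
  classical
  induction I using Finset.induction_on generalizing S with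
  | empty => exact ⟨0, fun u hu => by simpa only [Pi.zero_apply, ne_eq, not_true_eq_false, imp_false, Prod.forall, notMem_empty] using (hS u hu).1⟩
  | insert y A hy ih =>
  refine comp_red (fun S hS hC => ?_) S hS
  by_contra h0
  obtain ⟨O, o1, o2⟩ := exists_V h (Sum.elim (fun i => if i = y then 1 else 0)
    fun i => if i = y then 1 else 0)
  have hn : ∀ n : ℕ, n ≠ 0 → O.valuation n = 1 := fun n hn => by
    simpa only [map_natCast] using o1 n (Nat.cast_ne_zero.2 hn)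
  have hO : ∀ V : Valuation ℂ O.ValueGroup, V 2 = 1 → ∀ ε ε', ε * ε' < 1 →
      (∀ i ∈ insert y A, ∀ j ∈ insert y A, V (z j - z i) ≤ ε ∧ V (w j - w i) ≤ ε') →
        ∀ u ∈ S, V u.2 ≤ ε ∨ 1 ≤ V u.2 * ε' := fun V h2 ε ε' hε hτ u hu => by
    by_contra! h1
    exact h0 (two h2 hε hτ (fun v hv => ⟨(hS v hv).1, hC u hu v hv⟩) h1.1 h1.2)
  obtain ⟨S', s1, s2⟩ := exists_minimal_le_of_wellFoundedLT
    (fun S => ¬ LC (Adj z w) (fun u => if u.1 = y then 1 else 0) S) S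
    fun ⟨f, hf⟩ => h0 ⟨f, fun u hu => (hf u hu).2⟩
  have st : St _ _ S' Prod.fst (insert y A) y z w Prod.snd := ⟨s2,
    fun u hu => ⟨(hS u (s1 hu)).1, by by_cases h : u.1 = y <;> simp only [h, ne_eq, not_true_eq_false, ↓ reduceIte, one_ne_zero, and_self, or_true, not_false_eq_true, zero_ne_one, or_false]⟩,
    fun u hu v hv r => ⟨by unfold Adj at r ⊢; linear_combination r,
      (adj_tri (hS u (s1 hu)).2.1 (hS v (s1 hv)).2.1 r).imp fun _ => Tri.swap'⟩⟩
  obtain ⟨u, hu⟩ : S'.Nonempty := nonempty_iff_ne_empty.2 fun h1 => s2.1 ⟨0, by simp [h1]⟩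
  rcases A.eq_empty_or_nonempty with rfl | ⟨a, ha⟩
  · simpa only [nonpos_iff_eq_zero, map_eq_zero, (hS u (s1 hu)).2.1, mul_zero, one_ne_zero, or_self] using hO _ (hn 2 two_ne_zero) 0 0 (by simp) (by simp only [insert_empty_eq, mem_singleton, nonpos_iff_eq_zero, map_eq_zero, forall_eq, sub_self, and_self]) u (s1 hu)
  have a1 : a ≠ y := fun h => hy (h ▸ ha)
  obtain ⟨τ, t1, t2⟩ := eps' (V := O.valuation) (y := y) (z := z) (w := w) (fun i hi =>
    ⟨by simpa only [Sum.elim_inl, hi, ↓ reduceIte, eq_ratCast, Rat.cast_zero, sub_zero] using o2 (.inl i), by simpa only [Sum.elim_inr, hi, ↓ reduceIte, eq_ratCast, Rat.cast_zero, sub_zero] using o2 (.inr i)⟩) (insert y A)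
  have t0 : τ ≠ 0 := fun h1 => h.ne_zero (.inl a)
    (by simpa [h1] using (t2 a (mem_insert_of_mem ha) a1).1)
  have hz : O.valuation (z y - 1) < 1 := by simpa only [Sum.elim_inl, ↓ reduceIte, eq_ratCast, Rat.cast_one] using o2 (.inl y)
  have hw : O.valuation (w y - 1) < 1 := by simpa using o2 (.inr y)
  refine h0 (merge h (mem_insert_of_mem ha) a1 (hS u (s1 hu)).2 (st.alg h ?_ hu)
    (by rwa [erase_insert hy]) S fun v hv => ⟨(hS v hv).1, hC u (s1 hu) v hv⟩)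
  rcases st.clus (hn 2 two_ne_zero) t1 t2 hz hw with h1 | h1
  · exact st.nocross h O.valuation_surjective hn t0 t1 t2 hw (fun V h2 ε ε' hε hτ u hu =>
      hO V h2 ε ε' hε (fun i hi j hj => ⟨V.map_sub_le (hτ j hj).1 (hτ i hi).1,
        V.map_sub_le (hτ j hj).2 (hτ i hi).2⟩) u (s1 hu)) h1
  · have k : ∀ {Γ : Type} [LinearOrderedCommGroupWithZero Γ] (V : Valuation ℂ Γ), ∀ u ∈ S', ∀ ε,
        (V u.2⁻¹ ≤ ε ↔ 1 ≤ V u.2 * ε) ∧ (1 ≤ V u.2⁻¹ * ε ↔ V u.2 ≤ ε) := fun V u hu ε => by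
      have p := zero_lt_iff.2 (V.ne_zero_iff.2 (hS u (s1 hu)).2.1)
      rw [map_inv₀, inv_le_iff_one_le_mul₀' p, le_inv_mul_iff₀ p, mul_one]
      exact ⟨Iff.rfl, Iff.rfl⟩
    refine st.swap.nocross ?_ O.valuation_surjective hn t0 t1 (fun i i1 i2 => (t2 i i1 i2).symm) hz
      (fun V h2 ε ε' hε hτ u hu => ?_) fun u hu => (k _ u hu _).1.2 (h1 u hu)
    · convert h.comp Sum.swap Sum.swap_leftInverse.injective using 1
      ext (i | i) <;> rfl
    · rw [(k V u hu _).1, (k V u hu _).2, or_comm]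
      exact hO V h2 ε' ε (by rwa [mul_comm]) (fun i hi j hj =>
        ⟨V.map_sub_le (hτ j hj).2 (hτ i hi).2, V.map_sub_le (hτ j hj).1 (hτ i hi).1⟩) u (s1 hu)

end Pool.Agent.MP_5c7750_co.Th

end

-- part Top
section

/-! Three dense colours on a union of unit circles with generic centres. -/

namespace Pool.Agent.MP_5c7750_co.Th

open Complex Set TopologicalSpace Relation

variable {ι : Type} {x : ι → P}

open MvPolynomial in
theorem indep_lin {K : Type} [Field K] [CharZero K] {J : K} (h : J ^ 2 = -1) :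
    AlgebraicIndependent K (Sum.elim (fun i => X (.inl i) + C J * X (.inr i))
      fun i => X (.inl i) - C J * X (.inr i) : ι ⊕ ι → MvPolynomial (ι ⊕ ι) K) := by
  have hJ : (C J : MvPolynomial (ι ⊕ ι) K) ^ 2 = -1 := by rw [← map_pow, h, map_neg, map_one]
  have h2 : (C (1 / 2 : K) : MvPolynomial (ι ⊕ ι) K) * 2 = 1 := by
    rw [← map_ofNat C, ← map_mul, ← map_one C]
    norm_num
  let g : ι ⊕ ι → MvPolynomial (ι ⊕ ι) K := Sum.elim
    (fun i => C (1 / 2) * (X (.inl i) + X (.inr i)))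
    fun i => -C J * C (1 / 2) * (X (.inl i) - X (.inr i))
  refine AlgebraicIndependent.of_aeval (x := g) ?_
  convert algebraicIndependent_X (ι ⊕ ι) K using 2 with j
  rcases j with i | i <;>
    simp only [g, Sum.elim_inl, Sum.elim_inr, map_add, map_sub, map_mul, aeval_X, aeval_C,
      algebraMap_eq]
  · linear_combination X (.inl i) * h2 - C (1 / 2) * (X (.inl i) - X (.inr i)) * hJ
  · linear_combination X (.inr i) * h2 + C (1 / 2) * (X (.inl i) - X (.inr i)) * hJ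

open MvPolynomial in
theorem indep_gen {K : Type} [Field K] [CharZero K] [Algebra K ℂ] {J : K}
    (hJ : algebraMap K ℂ J = I) {a b : ι → ℂ} (h : AlgebraicIndependent K (Sum.elim a b)) :
    AlgebraicIndependent K (Sum.elim (fun i => a i + b i * I) fun i => a i - b i * I) := by
  have h1 : J ^ 2 = -1 := (algebraMap K ℂ).injective (by rw [map_pow, hJ, I_sq, map_neg, map_one])
  convert h.aeval_of_algebraicIndependent (indep_lin h1) using 2 with j
  rcases j with i | i <;> simp [hJ, mul_comm]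

theorem indep (hx : AlgebraicIndependent ℚ fun j : ι × Fin 2 => x j.1 j.2) :
    AlgebraicIndependent (algebraicClosure ℚ ℂ)
      (Sum.elim (fun i => zz (x i)) fun i => ww (x i)) := by
  have h0 : AlgebraicIndependent ℚ
      (Sum.elim (fun i => ((x i 0 : ℝ) : ℂ)) fun i => ((x i 1 : ℝ) : ℂ)) := by
    have h := (hx.map' (f := IsScalarTower.toAlgHom ℚ ℝ ℂ) ofReal_injective).comp
      (Sum.elim (fun i => (i, 0)) fun i => (i, 1) : ι ⊕ ι → ι × Fin 2)
      (by rintro (i | i) (j | j) h <;> simp_all)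
    rwa [Sum.comp_elim] at h
  exact indep_gen (J := ⟨I, mem_algebraicClosure_iff'.2
    ⟨Polynomial.X ^ 2 + 1, by monicity!, by simp⟩⟩) rfl h0.algebraicClosure

theorem real_pf {Γ : Type} [LinearOrderedCommGroupWithZero Γ] (V : Valuation ℂ Γ) {z w : ι → ℂ}
    (hz : ∀ i, V (z i) < 1) (hw : ∀ i, V (w i) < 1) (hc : ∀ i, starRingEnd ℂ (z i) = w i)
    (S : Finset ι) {a : ℂ} (h0 : a ≠ 0) (ha : starRingEnd ℂ a = a⁻¹) : PF z w S a := by
  obtain ⟨ε, e1, e2⟩ := exists_eps (S ×ˢ S)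
    (fun p => max (V (z p.2 - z p.1)) (V (w p.2 - w p.1)))
    fun p => max_lt (V.map_sub_lt (hz _) (hz _)) (V.map_sub_lt (hw _) (hw _))
  have e3 : ∀ i ∈ S, ∀ j ∈ S, V (z j - z i) ≤ ε ∧ V (w j - w i) ≤ ε := fun i hi j hj =>
    max_le_iff.1 (e2 (i, j) (Finset.mem_product.2 ⟨hi, hj⟩))
  have e4 := mul_lt e1 e1.le
  have hc' : ∀ i, starRingEnd ℂ (w i) = z i := fun i => by rw [← hc, conj_conj]
  have k1 : ∀ b, ReflTransGen (Mv z w S) a b → b ≠ 0 ∧ (V a ≤ ε ↔ V b ≤ ε) ∧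
      ReflTransGen (Mv z w S) a (starRingEnd ℂ b)⁻¹ := by
    intro b hb
    induction hb with
    | refl => exact ⟨h0, Iff.rfl, by rw [ha, inv_inv]⟩
    | tail _ h ih =>
      obtain ⟨i1, i2, i3⟩ := ih
      rcases h with rfl | ⟨i, hi, j, hj, c, h⟩
      · exact ⟨neg_ne_zero.2 i1, by rwa [V.map_neg],
          i3.tail (Or.inl (by rw [map_neg, inv_neg]))⟩
      · obtain ⟨d1, d2⟩ := e3 i hi j hj
        refine ⟨h.2.1, i2.trans ⟨(h.zone V d1 d2 e4).1, (h.swap.zone V d1 d2 e4).1⟩,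
          i3.tail (Or.inr ⟨i, hi, j, hj, (starRingEnd ℂ c)⁻¹, ?_⟩)⟩
        obtain ⟨t1, t2, t3, t4, t5⟩ := h
        refine ⟨by simpa using t1, by simpa using t2, by simpa using t3, ?_, ?_⟩
        · simpa [hc'] using congrArg (starRingEnd ℂ) t5
        · simpa [hc] using congrArg (starRingEnd ℂ) t4
  have k2 : ∀ b, ReflTransGen (Mv z w S) a b → ∀ i ∈ S, ∀ j ∈ S, b ≠ z j - z i := by
    rintro _ hb i hi j hj rfl
    obtain ⟨i1, i2, i3⟩ := k1 _ hb
    have h1 := (k1 _ i3).2.1.1 (i2.2 (e3 i hi j hj).1)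
    have h2 : starRingEnd ℂ (z j - z i) = w j - w i := by rw [map_sub, hc, hc]
    have h3 : w j - w i ≠ 0 := by rw [← h2]; exact (map_ne_zero _).2 i1
    rw [h2] at h1
    have h4 := mul_le_mul' h1 (e3 i hi j hj).2
    rw [← map_mul, inv_mul_cancel₀ h3, map_one] at h4
    exact absurd e4 (not_lt.2 h4)
  refine ⟨h0, fun b hb i hi j hj _ => ⟨k2 b hb i hi j hj, fun h => ?_⟩⟩
  refine k2 _ (k1 b hb).2.2 i hi j hj ?_
  rw [← map_inv₀, h, map_sub, hc', hc']

theorem conj_zz (p : P) : starRingEnd ℂ (zz p) = ww p := by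
  simp [zz, ww, sub_eq_add_neg]

theorem Un.dir {p q : P} (h : Un p q) : zz p - zz q ≠ 0 ∧ (zz p - zz q)⁻¹ = ww p - ww q :=
  ⟨left_ne_zero_of_mul_eq_one h, (eq_inv_of_mul_eq_one_right h).symm⟩

theorem Un.adj {p q : P} {i j : ι} (hp : Un p (x i)) (hq : Un q (x j)) (h : Un p q) :
    Adj (fun i => zz (x i)) (fun i => ww (x i)) (i, zz p - zz (x i)) (j, zz q - zz (x j)) := by
  unfold Adj
  simp only [(Un.dir hp).2, (Un.dir hq).2]
  unfold Un at h
  linear_combination h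

theorem exists_proper (hx : AlgebraicIndependent ℚ fun j : ι × Fin 2 => x j.1 j.2) :
    ∃ f : P → ZMod 3, ∀ p q, InW x p → InW x q → Un p q → f p ≠ f q := by
  classical
  have h0 := (indep hx).restrictScalars (R := ℚ) (algebraMap ℚ _).injective
  obtain ⟨O, -, hO⟩ := exists_V h0 fun _ => 0
  simp only [map_zero, sub_zero] at hO
  have key : ∀ s : Finset P, ∃ f : P → ZMod 3, ∀ p ∈ s, ∀ q ∈ s, InW x p → InW x q → Un p q →
      f p ≠ f q := by
    intro s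
    choose own hown using fun p : {p // InW x p} => p.2
    let u : {p // InW x p} → ι × ℂ := fun p => (own p, zz p - zz (x (own p)))
    let t := s.subtype (InW x)
    obtain ⟨f, hf⟩ := core3 h0 (t.image own) (t.image u) (by
      intro v hv
      obtain ⟨p, hp, rfl⟩ := Finset.mem_image.1 hv
      refine ⟨Finset.mem_image_of_mem _ hp, real_pf O.valuation (fun i => hO (.inl i))
        (fun i => hO (.inr i)) (fun i => conj_zz _) _ (Un.dir (hown p)).1 ?_⟩
      rw [(Un.dir (hown p)).2, map_sub, conj_zz, conj_zz])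
    refine ⟨fun p => if h : InW x p then f (u ⟨p, h⟩) else 0, fun p hp q hq h1 h2 h => ?_⟩
    simp only [dif_pos h1, dif_pos h2]
    exact hf _ (Finset.mem_image_of_mem _ (Finset.mem_subtype.2 hp)) _
      (Finset.mem_image_of_mem _ (Finset.mem_subtype.2 hq))
      (Un.adj (hown ⟨p, h1⟩) (hown ⟨q, h2⟩) h)
  choose g hg using key
  obtain ⟨f, hf⟩ := Finset.rado_selection (β := fun _ : P => ZMod 3) g
  refine ⟨f, fun p q h1 h2 h => ?_⟩
  obtain ⟨t, t1, t2⟩ := hf {p, q}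
  rw [t2 p (by simp), t2 q (by simp)]
  exact hg t p (t1 (by simp)) q (t1 (by simp)) h1 h2 h

theorem exists_inj {α : Type} (A : ℕ → Set α) (h : ∀ n, (A n).Infinite) :
    ∃ f : ℕ → α, Function.Injective f ∧ ∀ n, f n ∈ A n := by
  classical
  choose q q1 q2 using fun n (s : Finset α) => (h n).exists_notMem_finset s
  let K : ℕ → Finset α := fun n => Nat.rec ∅ (fun n s => insert (q n s) s) n
  have k1 : Monotone K := monotone_nat_of_le_succ fun n => Finset.subset_insert _ _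
  refine ⟨fun n => q n (K n), Function.Injective.of_lt_imp_ne fun m n h h' => q2 n (K n) ?_,
    fun n => q1 n _⟩
  rw [← h']
  exact k1 (Nat.succ_le_of_lt h) (Finset.mem_insert_self _ _)

theorem close_pow (O : ValuationSubring ℂ) {a b : ℂ} (h : O.valuation (a - b) < 1)
    (hb : O.valuation b ≤ 1) (n : ℕ) : O.valuation (a ^ n - b ^ n) < 1 := by
  have ha : O.valuation a ≤ 1 := by simpa only [ValuationSubring.valuation_le_one_iff, sub_add_cancel] using O.valuation.map_add_le h.le hb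
  obtain ⟨c, hc⟩ := sub_dvd_pow_sub_pow (⟨a, (O.valuation_le_one_iff a).1 ha⟩ : O)
    ⟨b, (O.valuation_le_one_iff b).1 hb⟩ n
  have h1 : a ^ n - b ^ n = (a - b) * c := by simpa only [SubmonoidClass.mk_pow, AddSubgroupClass.coe_sub, MulMemClass.coe_mul] using congrArg Subtype.val hc
  rw [h1, map_mul]
  exact mul_lt h (O.valuation_le_one c)

theorem inf_dirs {U : Set P} (hU : IsOpen U) {p c : P} (hp : p ∈ U) (h : Un p c) :
    {t : ℂ | t ∈ algebraicClosure ℚ ℂ ∧ t ≠ 0 ∧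
      ∃ q ∈ U, Un q c ∧ (zz q - zz c) ^ 6 = t}.Infinite := by
  let r := orthonormalBasisOneI.repr
  have h1 : ∀ z, zz (r z) = z := fun z => r.symm_apply_apply z
  have h2 : ∀ p, r (zz p) = p := fun p => zz_inj (h1 _)
  have h3 : zz p ∈ range (circleMap (zz c) 1) := by
    rw [range_circleMap, Metric.mem_sphere, ← r.dist_map, h2, h2, un_iff.1 h, abs_one]
  obtain ⟨θ, hθ⟩ := h3
  have hπ := Real.pi_pos
  obtain ⟨δ, d1, d2⟩ := Metric.isOpen_iff.1
    (hU.preimage (r.continuous.comp (continuous_circleMap (zz c) 1))) θ (by simpa [hθ, h2] using hp)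
  obtain ⟨a, a1, a2⟩ := exists_rat_btwn (show θ / Real.pi < (θ + min δ 1) / Real.pi by
    gcongr; simp only [lt_add_iff_pos_right, lt_inf_iff, d1, zero_lt_one, and_self])
  obtain ⟨b, b1, b2⟩ := exists_rat_btwn a2
  have k : ∀ s ∈ Ioo a b, θ < s * Real.pi ∧ s * Real.pi < θ + min δ 1 := fun s hs =>
    ⟨(div_lt_iff₀ hπ).1 (a1.trans (Rat.cast_lt.2 hs.1)),
      (lt_div_iff₀ hπ).1 ((Rat.cast_lt.2 hs.2).trans b2)⟩
  refine infinite_of_injOn_mapsTo (f := fun s : ℚ => circleMap 0 1 (6 * (s * Real.pi)))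
    (s := Ioo a b) (fun s hs t ht h => ?_) (fun s hs => ⟨?_, circleMap_ne_center one_ne_zero,
      r (circleMap (zz c) 1 (s * Real.pi)), d2 ?_, un_iff.2 ?_, ?_⟩) (Ioo_infinite (Rat.cast_lt.1 b1))
  · have h4 := eq_of_circleMap_eq one_ne_zero (by
      rw [abs_lt]
      constructor <;> linarith only [(k s hs).1, (k s hs).2, (k t ht).1, (k t ht).2, min_le_right δ 1, Real.pi_gt_three]) h
    exact Rat.cast_injective (α := ℝ) (mul_right_cancel₀ hπ.ne' (by linarith only [h4]))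
  · refine mem_algebraicClosure_iff.2 (IsAlgebraic.of_pow s.den_pos ?_)
    have h5 : (s.den : ℝ) * (6 * (s * Real.pi)) = (3 * s.num : ℤ) * (2 * Real.pi) := by
      have := (Rat.cast_inj (α := ℝ)).2 s.mul_den_eq_num
      push_cast at this ⊢
      linear_combination 6 * Real.pi * this
    have h6 := (periodic_circleMap 0 1).int_mul_eq (3 * s.num)
    rw [circleMap_zero_pow, one_pow, h5, h6]
    simpa [circleMap] using isAlgebraic_one
  · rw [Metric.mem_ball, Real.dist_eq, abs_lt]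
    constructor <;> linarith only [(k s hs).1, (k s hs).2, min_le_left δ 1, d1]
  · rw [← h2 c, r.dist_map, h1]
    exact circleMap_mem_sphere (zz c) zero_le_one _
  · rw [h1, circleMap_sub_center, circleMap_zero_pow, one_pow]
    norm_num

theorem edge_inv (O : ValuationSubring ℂ) (hz : ∀ i, O.valuation (zz (x i)) < 1)
    (hw : ∀ i, O.valuation (ww (x i)) < 1) {p q : P} (hp : InW x p) (hq : InW x q) (h : Un p q)
    {t : ℂ} (ht : O.valuation t = 1) (h1 : O.valuation (zz p ^ 6 - t) < 1) :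
    O.valuation (zz q ^ 6 - t) < 1 := by
  obtain ⟨i, hi⟩ := hp
  obtain ⟨j, hj⟩ := hq
  obtain ⟨g, hg⟩ := adj_tri (Un.dir hi).1 (Un.dir hj).1 (Un.adj hi hj h)
  have e1 := max_lt (O.valuation.map_sub_lt (hz j) (hz i)) (O.valuation.map_sub_lt (hw j) (hw i))
  have h2 : O.valuation (zz p) = 1 := by
    have := O.valuation.map_eq_of_sub_lt (ht ▸ h1)
    rw [ht, map_pow] at this
    exact (pow_eq_one_iff_of_nonneg zero_le (by norm_num)).1 this
  have h3 : O.valuation (zz p - zz (x i)) = 1 := by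
    rw [O.valuation.map_sub_eq_of_lt_left (h2 ▸ hz i), h2]
  obtain ⟨h4, h5⟩ := (hg.swap'.zone O.valuation (le_max_left _ _) (le_max_right _ _)
    (mul_lt e1 e1.le)).2.2 (h3 ▸ e1) (by rwa [h3, one_mul])
  rw [h3] at h4
  rw [map_pow, h4, one_pow] at h5
  have h6 := close_pow O h5 (by rw [map_pow, h4, one_pow]) 2
  have h7 := close_pow O (a := zz p - zz (x i)) (b := zz p) (by simpa only [sub_sub_cancel_left, Valuation.map_neg] using hz i) h2.le 6
  rw [O.valuation.map_neg] at h4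
  have h8 := close_pow O (a := zz q) (b := zz q - zz (x j)) (by simpa only [sub_sub_cancel] using hz j) h4.le 6
  convert O.valuation.map_add_lt (O.valuation.map_add_lt h1 h7) (O.valuation.map_sub_lt h8 h6)
    using 2
  ring

theorem three' (hx : AlgebraicIndependent ℚ fun j : ι × Fin 2 => x j.1 j.2)
    (U : ℕ → Set P) (hU : ∀ n, IsOpen (U n)) (hU' : ∀ n, ∃ p ∈ U n, InW x p) (col : ℕ → ZMod 3) :
    ∃ c : P → ZMod 3, (∀ p q, InW x p → InW x q → Un p q → c p ≠ c q) ∧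
      ∀ n, ∃ p ∈ U n, InW x p ∧ c p = col n := by
  classical
  obtain ⟨f, hf⟩ := exists_proper hx
  obtain ⟨O, h1, hO⟩ := exists_V (indep hx) fun _ => 0
  simp only [map_zero, sub_zero] at hO
  choose p0 hp0 i hi using hU'
  obtain ⟨t, t1, t2⟩ := exists_inj _ fun n => inf_dirs (hU n) (hp0 n) (hi n)
  choose t3 t4 pt t5 t6 t7 using t2
  have k1 : ∀ n, O.valuation (t n) = 1 := fun n =>
    h1 ⟨t n, t3 n⟩ fun h => t4 n (congrArg Subtype.val h)
  have k2 : ∀ n, O.valuation (zz (pt n) ^ 6 - t n) < 1 := fun n => by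
    have h2 := k1 n
    rw [← t7, map_pow] at h2
    rw [← t7]
    exact close_pow O (by simpa only [sub_sub_cancel, Sum.elim_inl] using hO (.inl (i n)))
      ((pow_eq_one_iff_of_nonneg zero_le (by norm_num)).1 h2).le 6
  have k3 : ∀ n m, O.valuation (zz (pt n) ^ 6 - t m) < 1 → m = n := fun n m h => by
    by_contra hne
    have h2 := h1 (⟨t m, t3 m⟩ - ⟨t n, t3 n⟩)
      (sub_ne_zero.2 fun h => hne (t1 (congrArg Subtype.val h)))
    have h3 := O.valuation.map_sub_lt (k2 n) h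
    rw [sub_sub_sub_cancel_left] at h3
    exact h3.ne h2
  let s : (ℕ → Prop) → ZMod 3 := fun R =>
    if h : ∃ n, R n then col h.choose - f (pt h.choose) else 0
  refine ⟨fun p => f p + s fun n => O.valuation (zz p ^ 6 - t n) < 1, fun p q hp hq h h' => ?_,
    fun n => ⟨pt n, t5 n, ⟨_, t6 n⟩, ?_⟩⟩
  · have e : (fun n => O.valuation (zz p ^ 6 - t n) < 1) =
        fun n => O.valuation (zz q ^ 6 - t n) < 1 := funext fun n => propext
      ⟨edge_inv O (fun i => hO (.inl i)) (fun i => hO (.inr i)) hp hq h (k1 n),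
        edge_inv O (fun i => hO (.inl i)) (fun i => hO (.inr i)) hq hp h.symm (k1 n)⟩
    simp only [e] at h'
    exact hf p q hp hq h (add_right_cancel h')
  · have h2 : ∃ m, O.valuation (zz (pt n) ^ 6 - t m) < 1 := ⟨n, k2 n⟩
    simp only [s, dif_pos h2, k3 n _ h2.choose_spec]
    ring

theorem three (X : Set P) (hX : AlgebraicIndependent ℚ fun j : X × Fin 2 => (j.1 : P) j.2) :
    ∃ c : {p : P // ∃ x ∈ X, dist x p = 1} → Fin 3,
      (∀ p q, dist p q = 1 → c p ≠ c q) ∧ ∀ i, Dense (c ⁻¹' {i}) := by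
  have hW : ∀ p : {p : P // ∃ x ∈ X, dist x p = 1}, InW (fun i : X => (i : P)) p :=
    fun ⟨p, y, h1, h2⟩ => ⟨⟨y, h1⟩, (un_iff.2 h2).symm⟩
  let B := {U ∈ countableBasis P | ∃ p ∈ U, InW (fun i : X => (i : P)) p}
  have : Countable B := ((countable_countableBasis P).mono (sep_subset _ _)).to_subtype
  have h1 : ∀ U, IsOpen U → (∃ p ∈ U, InW (fun i : X => (i : P)) p) → ∃ V ∈ B, V ⊆ U :=
    fun U hU ⟨p, h1, h2⟩ =>
      have ⟨V, h3, h4, h5⟩ := (isBasis_countableBasis P).exists_subset_of_mem_open h1 hU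
      ⟨V, ⟨h3, p, h4, h2⟩, h5⟩
  rcases isEmpty_or_nonempty {p : P // ∃ x ∈ X, dist x p = 1} with h | ⟨⟨p⟩⟩
  · exact ⟨fun _ => 0, isEmptyElim, fun _ => isEmptyElim⟩
  obtain ⟨V, hV, -⟩ := h1 univ isOpen_univ ⟨p, trivial, hW p⟩
  have : Nonempty (B × Fin 3) := ⟨⟨V, hV⟩, 0⟩
  obtain ⟨f, hf⟩ := exists_surjective_nat (B × Fin 3)
  obtain ⟨c, h2, h3⟩ := three' hX (fun n => (f n).1)
    (fun n => isOpen_of_mem_countableBasis (f n).1.2.1) (fun n => (f n).1.2.2) fun n => (f n).2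
  refine ⟨fun p => c p, fun p q h => h2 _ _ (hW p) (hW q) (un_iff.2 h),
    fun i => dense_iff_inter_open.2 ?_⟩
  rintro _ ⟨U, hU, rfl⟩ ⟨p, hp⟩
  obtain ⟨V, hV, h5⟩ := h1 U hU ⟨p, hp, hW p⟩
  obtain ⟨n, hn⟩ := hf (⟨V, hV⟩, i)
  have := h3 n
  rw [hn] at this
  obtain ⟨q, h6, ⟨y, hy⟩, h7⟩ := this
  exact ⟨⟨q, y, y.2, un_iff.1 hy.symm⟩, h5 h6, h7⟩

end Pool.Agent.MP_5c7750_co.Th

end
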